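import Mathlib
import Pool.Agent.H92.EH.Farey

/-!
The large sieve inequality in its direct form.
-/

set_option autoImplicit false

namespace Pool.Agent.H92.EH

open Finset

/-- Direct form of the large sieve inequality. -/
theorem large_sieve {ι : Type*} [DecidableEq ι] (J : Finset ι) (α : ι → ℝ) (a : ℕ → ℂ)
    (M N : ℕ) (hN : N ≤ M) (hM : 0 < M)
    (hsp : ∀ i ∈ J, ∀ j ∈ J, i ≠ j → ∀ m : ℤ, (1 : ℝ) / M ≤ |α i - α j - m|) :
    ∑ j ∈ J, ‖∑ n ∈ Icc 1 N, a n * e (n * α j)‖ ^ 2 ≤ 5 * M * ∑ n ∈ Icc 1 N, ‖a n‖ ^ 2 := by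
  set S : ι → ℂ := fun j => ∑ n ∈ Icc 1 N, a n * e (n * α j) with hS
  set T : ℝ := ∑ j ∈ J, ‖S j‖ ^ 2 with hT
  set B : ℝ := ∑ n ∈ Icc 1 N, ‖a n‖ ^ 2 with hB
  have hT0 : 0 ≤ T := sum_nonneg fun _ _ => by positivity
  have hB0 : 0 ≤ B := sum_nonneg fun _ _ => by positivity
  have hM' : (0 : ℝ) < M := by exact_mod_cast hM
  have h1 : (T : ℂ) = ∑ n ∈ Icc 1 N, a n * ∑ j ∈ J, (starRingEnd ℂ) (S j) * e (n * α j) := by
    rw [hT, Complex.ofReal_sum]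
    have h2 : ∀ j, ((‖S j‖ ^ 2 : ℝ) : ℂ)
        = ∑ n ∈ Icc 1 N, a n * ((starRingEnd ℂ) (S j) * e (n * α j)) := by
      intro j
      push_cast
      rw [← Complex.mul_conj']
      nth_rewrite 1 [hS]
      simp only
      rw [sum_mul]
      refine sum_congr rfl fun n _ => ?_
      ring
    simp_rw [h2]
    rw [sum_comm]
    refine sum_congr rfl fun n _ => ?_
    rw [mul_sum]
  have h3 : T ≤ ∑ n ∈ Icc 1 N, ‖a n‖ * ‖∑ j ∈ J, (starRingEnd ℂ) (S j) * e (n * α j)‖ := by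
    have : T = ‖(T : ℂ)‖ := by rw [Complex.norm_real, Real.norm_of_nonneg hT0]
    rw [this, h1]
    refine (norm_sum_le _ _).trans (le_of_eq ?_)
    refine sum_congr rfl fun n _ => ?_
    rw [norm_mul]
  have h4 : T ^ 2 ≤ B * (5 * M * T) := by
    calc T ^ 2 ≤ (∑ n ∈ Icc 1 N, ‖a n‖ * ‖∑ j ∈ J, (starRingEnd ℂ) (S j) * e (n * α j)‖) ^ 2 :=
          pow_le_pow_left₀ hT0 h3 2
      _ ≤ (∑ n ∈ Icc 1 N, ‖a n‖ ^ 2)
          * ∑ n ∈ Icc 1 N, ‖∑ j ∈ J, (starRingEnd ℂ) (S j) * e (n * α j)‖ ^ 2 :=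
          sum_mul_sq_le_sq_mul_sq _ _ _
      _ ≤ B * (5 * M * T) := by
          apply mul_le_mul_of_nonneg_left _ hB0
          refine (dual_large_sieve J α (fun j => (starRingEnd ℂ) (S j)) M N hN hM hsp).trans ?_
          simp only [RCLike.norm_conj]
          exact le_rfl
  rcases hT0.eq_or_lt with h | h
  · rw [← h]
    positivity
  · have h5 : T * T ≤ (5 * M * B) * T := by nlinarith
    exact le_of_mul_le_mul_right h5 h

/-- The large sieve over Farey fractions. -/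
theorem farey_ls (R N M : ℕ) (hM : 0 < M) (hR : R ^ 2 ≤ M) (hN : N ≤ M) (a : ℕ → ℂ) :
    ∑ r ∈ Icc 1 R, ∑ b ∈ red r, ‖∑ n ∈ Icc 1 N, a n * e (n * ((b : ℝ) / r))‖ ^ 2
      ≤ 5 * M * ∑ n ∈ Icc 1 N, ‖a n‖ ^ 2 := by
  classical
  set J : Finset (Σ _ : ℕ, ℕ) := (Icc 1 R).sigma (fun r => red r) with hJ
  have hsp : ∀ i ∈ J, ∀ j ∈ J, i ≠ j → ∀ k : ℤ,
      (1 : ℝ) / M ≤ |(i.2 : ℝ) / i.1 - (j.2 : ℝ) / j.1 - k| := by
    rintro ⟨r, b⟩ hi ⟨r', b'⟩ hj hne k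
    rw [hJ, mem_sigma, mem_Icc] at hi hj
    simp only at hi hj
    refine le_trans ?_ (farey_spacing (by omega) (by omega) hi.2 hj.2 ?_ k)
    · apply one_div_le_one_div_of_le
      · have h1 : (0 : ℝ) < r := by exact_mod_cast hi.1.1
        have h2 : (0 : ℝ) < r' := by exact_mod_cast hj.1.1
        positivity
      · have : r * r' ≤ M := by
          calc r * r' ≤ R * R := Nat.mul_le_mul hi.1.2 hj.1.2
            _ = R ^ 2 := by ring
            _ ≤ M := hR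
        exact_mod_cast this
    · rintro ⟨rfl, rfl⟩
      exact hne rfl
  have h := large_sieve J (fun j => (j.2 : ℝ) / j.1) a M N hN hM hsp
  rw [hJ, sum_sigma] at h
  exact h

end Pool.Agent.H92.EH
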