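import Mathlib
import Pool.Agent.H92.EH.TestFun
import Pool.Agent.H92.EH2.LS

/-!
Bilinear estimate for a single prime modulus.
-/

set_option autoImplicit false

namespace Pool.Agent.H92.EH

open Finset

theorem class_sum_bound (r : ℕ) (hr : 0 < r) (Q : Finset ℕ) (β Ψ : ℕ → ℂ)
    (hΨ : ∑ c ∈ range r, Ψ c = 0) :
    r * ‖∑ q ∈ Q, β q * Ψ (q % r)‖ ^ 2 ≤ (∑ c ∈ range r, ‖Ψ c‖ ^ 2) *
       ∑ h ∈ Ico 1 r, ‖∑ q ∈ Q, β q * e (q * ((h : ℝ) / r))‖ ^ 2 := by
  have hr' : (0 : ℝ) < r := by exact_mod_cast hr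
  have hrc : (r : ℂ) ≠ 0 := by exact_mod_cast hr.ne'
  set S : ℕ → ℂ := fun h => ∑ q ∈ Q, β q * e (q * ((h : ℝ) / r)) with hS
  set n : ℕ → ℂ := fun c => ∑ q ∈ Q.filter (fun q => q % r = c), β q with hn
  set u : ℕ → ℂ := fun c => ∑ h ∈ Ico 1 r, (S h / r) * e ((-(h : ℤ) : ℤ) * ((c : ℝ) / r)) with hu
  have h1 : ∑ q ∈ Q, β q * Ψ (q % r) = ∑ c ∈ range r, n c * Ψ c := by
    rw [← sum_fiberwise_of_maps_to (s := Q) (t := range r) (g := fun q => q % r)
      (fun q _ => mem_range.mpr (Nat.mod_lt _ hr))]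
    refine sum_congr rfl fun c _ => ?_
    rw [hn]
    simp only
    rw [sum_mul]
    refine sum_congr rfl fun q hq => ?_
    rw [(mem_filter.mp hq).2]
  have h2 : ∀ c ∈ range r, (r : ℂ) * n c = ∑ h ∈ range r, S h * e ((-(h : ℤ) : ℤ) * ((c : ℝ) / r)) := by
    intro c hc
    rw [mem_range] at hc
    have e1 : ∀ h : ℕ, S h * e ((-(h : ℤ) : ℤ) * ((c : ℝ) / r))
        = ∑ q ∈ Q, β q * e (((q : ℤ) - c : ℤ) * ((h : ℝ) / r)) := by
      intro h
      rw [hS]
      simp only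
      rw [sum_mul]
      refine sum_congr rfl fun q _ => ?_
      rw [mul_assoc, ← e_add]
      congr 2
      push_cast
      ring
    simp_rw [e1]
    rw [sum_comm]
    have e2 : ∀ q ∈ Q, ∑ h ∈ range r, β q * e (((q : ℤ) - c : ℤ) * ((h : ℝ) / r))
        = (if q % r = c then (r : ℂ) * β q else 0) := by
      intro q _
      rw [← mul_sum, sum_complete r hr]
      have e3 : (r : ℤ) ∣ (q : ℤ) - c ↔ q % r = c := by
        constructor
        · intro h
          have h4 : (c : ℤ) ≡ q [ZMOD r] := by exact (Int.modEq_iff_dvd).mpr h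
          have h5 : c ≡ q [MOD r] := (Int.natCast_modEq_iff).mp h4
          unfold Nat.ModEq at h5
          rw [Nat.mod_eq_of_lt hc] at h5
          exact h5.symm
        · intro h
          have h5 : c ≡ q [MOD r] := by
            unfold Nat.ModEq
            rw [Nat.mod_eq_of_lt hc, h]
          exact (Int.modEq_iff_dvd).mp ((Int.natCast_modEq_iff).mpr h5)
      simp only [e3]
      split_ifs
      · ring
      · ring
    rw [sum_congr rfl e2, ← sum_filter, hn]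
    simp only
    rw [mul_sum]
  have h3 : ∀ c ∈ range r, n c = S 0 / r + u c := by
    intro c hc
    have h4 := h2 c hc
    have h5 : range r = insert 0 (Ico 1 r) := by
      ext k
      simp only [mem_range, mem_insert, mem_Ico]
      omega
    rw [h5, sum_insert (by simp)] at h4
    have h6 : e ((-((0 : ℕ) : ℤ) : ℤ) * ((c : ℝ) / r)) = 1 := by
      have : ((-((0 : ℕ) : ℤ) : ℤ) : ℝ) * ((c : ℝ) / r) = 0 := by push_cast; ring
      rw [this, e_zero]
    rw [h6, mul_one] at h4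
    have h7 : (r : ℂ) * u c = ∑ h ∈ Ico 1 r, S h * e ((-(h : ℤ) : ℤ) * ((c : ℝ) / r)) := by
      rw [hu]
      simp only
      rw [mul_sum]
      refine sum_congr rfl fun h _ => ?_
      field_simp
    rw [← h7] at h4
    apply mul_left_cancel₀ hrc
    rw [h4]
    field_simp
  have h4 : ∑ c ∈ range r, n c * Ψ c = ∑ c ∈ range r, u c * Ψ c := by
    have e1 : ∑ c ∈ range r, n c * Ψ c = ∑ c ∈ range r, (S 0 / r * Ψ c + u c * Ψ c) := by
      refine sum_congr rfl fun c hc => ?_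
      rw [h3 c hc]
      ring
    rw [e1, sum_add_distrib, ← mul_sum, hΨ, mul_zero, zero_add]
  have h5 : ∑ c ∈ range r, ‖u c‖ ^ 2 = (1 / r) * ∑ h ∈ Ico 1 r, ‖S h‖ ^ 2 := by
    have e1 := parseval_le r hr (Ico 1 r) (fun h => S h / r) (fun h => -(h : ℤ)) (by
      intro i hi j hj hne hd
      rw [mem_Ico] at hi hj
      have hd' : (r : ℤ) ∣ (j : ℤ) - i := by
        have : -(i : ℤ) - -(j : ℤ) = (j : ℤ) - i := by ring
        rwa [this] at hd
      exact hne (eq_of_dvd_sub hj.2 hi.2 hd').symm)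
    rw [hu]
    simp only
    rw [e1, mul_sum, mul_sum]
    refine sum_congr rfl fun h _ => ?_
    rw [norm_div, Complex.norm_natCast, div_pow]
    field_simp
  rw [h1, h4]
  have h6 : ‖∑ c ∈ range r, u c * Ψ c‖ ^ 2 ≤ (∑ c ∈ range r, ‖u c‖ ^ 2) * ∑ c ∈ range r, ‖Ψ c‖ ^ 2 := by
    calc ‖∑ c ∈ range r, u c * Ψ c‖ ^ 2 ≤ (∑ c ∈ range r, ‖u c‖ * ‖Ψ c‖) ^ 2 := by
          apply pow_le_pow_left₀ (norm_nonneg _)
          refine (norm_sum_le _ _).trans (le_of_eq ?_)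
          exact sum_congr rfl fun c _ => norm_mul _ _
      _ ≤ _ := sum_mul_sq_le_sq_mul_sq _ _ _
  rw [h5] at h6
  calc (r : ℝ) * ‖∑ c ∈ range r, u c * Ψ c‖ ^ 2
      ≤ r * ((1 / r) * (∑ h ∈ Ico 1 r, ‖S h‖ ^ 2) * ∑ c ∈ range r, ‖Ψ c‖ ^ 2) :=
        mul_le_mul_of_nonneg_left h6 hr'.le
    _ = (∑ c ∈ range r, ‖Ψ c‖ ^ 2) * ∑ h ∈ Ico 1 r, ‖S h‖ ^ 2 := by
        field_simp

end Pool.Agent.H92.EH
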