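import Mathlib
import Pool.Agent.H92.EH2.Bilin

/-!
Bilinear estimate, second part.
-/

set_option autoImplicit false

namespace Pool.Agent.H92.EH

open Finset

/-- The variance is at most the second moment. -/
theorem variance_le (s : Finset ℕ) (f : ℕ → ℂ) (N : ℕ) (hN : s.card = N) (h0 : 0 < N) :
    ∑ b ∈ s, ‖f b - (∑ c ∈ s, f c) / N‖ ^ 2 ≤ ∑ b ∈ s, ‖f b‖ ^ 2 := by
  set m : ℂ := (∑ c ∈ s, f c) / N with hm
  have hNc : (N : ℂ) ≠ 0 := by exact_mod_cast h0.ne'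
  have hs : ∑ c ∈ s, f c = N * m := by
    rw [hm]
    field_simp
  have h1 : ∀ b, ‖f b - m‖ ^ 2 = ‖f b‖ ^ 2 - 2 * (f b * (starRingEnd ℂ) m).re + ‖m‖ ^ 2 := by
    intro b
    rw [← Complex.normSq_eq_norm_sq, ← Complex.normSq_eq_norm_sq, ← Complex.normSq_eq_norm_sq,
      Complex.normSq_sub]
    ring
  have h2 : ∑ b ∈ s, (f b * (starRingEnd ℂ) m).re = N * ‖m‖ ^ 2 := by
    have : ∑ b ∈ s, (f b * (starRingEnd ℂ) m).re = ((∑ b ∈ s, f b) * (starRingEnd ℂ) m).re := by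
      rw [sum_mul, Complex.re_sum]
    rw [this, hs, mul_assoc, Complex.mul_conj']
    have : ((N : ℂ) * (‖m‖ : ℂ) ^ 2) = ((N * ‖m‖ ^ 2 : ℝ) : ℂ) := by push_cast; rfl
    rw [this, Complex.ofReal_re]
  calc ∑ b ∈ s, ‖f b - m‖ ^ 2
      = ∑ b ∈ s, (‖f b‖ ^ 2 - 2 * (f b * (starRingEnd ℂ) m).re + ‖m‖ ^ 2) :=
        sum_congr rfl fun b _ => h1 b
    _ = ∑ b ∈ s, ‖f b‖ ^ 2 - 2 * ∑ b ∈ s, (f b * (starRingEnd ℂ) m).re + s.card * ‖m‖ ^ 2 := by
        rw [sum_add_distrib, sum_sub_distrib, ← mul_sum, sum_const, nsmul_eq_mul]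
    _ = ∑ b ∈ s, ‖f b‖ ^ 2 - N * ‖m‖ ^ 2 := by
        rw [h2, hN]
        ring
    _ ≤ ∑ b ∈ s, ‖f b‖ ^ 2 := by
        have : 0 ≤ (N : ℝ) * ‖m‖ ^ 2 := by positivity
        linarith

theorem sum_red_inv {E : Type*} [AddCommMonoid E] (r : ℕ) (hr : 0 < r) (G : ℕ → E) :
    ∑ q ∈ red r, G (inv q r) = ∑ b ∈ red r, G b := by
  refine sum_bij' (fun q _ => inv q r) (fun q _ => inv q r) ?_ ?_ ?_ ?_ ?_
  · intro q hq
    exact inv_mem_red hr (mem_red.mp hq).2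
  · intro q hq
    exact inv_mem_red hr (mem_red.mp hq).2
  · intro q hq
    exact inv_inv_of_mem_red hq
  · intro q hq
    exact inv_inv_of_mem_red hq
  · intro q _
    rfl

theorem coprime_mod_iff (q r : ℕ) : Nat.Coprime (q % r) r ↔ Nat.Coprime q r := by
  have h : Nat.gcd (q % r) r = Nat.gcd q r := by rw [← Nat.gcd_rec, Nat.gcd_comm]
  unfold Nat.Coprime
  rw [h]

/-- The kernel attached to `r` and `l`. -/
noncomputable def KK (r : ℕ) (l : ℤ) (q p : ℕ) : ℂ :=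
  if Nat.Coprime q r then
    e ((-(l * p) : ℤ) * ((inv q r : ℝ) / r)) - ram r (-(l * p)) / (Nat.totient r : ℂ) else 0

theorem bilin (r : ℕ) (hr : 0 < r) (l : ℤ) (hl : IsCoprime l (r : ℤ)) (Q P : Finset ℕ)
    (β a : ℕ → ℂ) :
    r * ‖∑ q ∈ Q, ∑ p ∈ P, KK r l q p * (a p * β q)‖ ^ 2
      ≤ (∑ b ∈ red r, ‖∑ p ∈ P, a p * e (p * ((b : ℝ) / r))‖ ^ 2) *
       ∑ h ∈ Ico 1 r, ‖∑ q ∈ Q, β q * e (q * ((h : ℝ) / r))‖ ^ 2 := by
  set Φ : ℕ → ℂ := fun b => ∑ p ∈ P, a p * e ((-(l * p) : ℤ) * ((b : ℝ) / r)) with hΦ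
  set m : ℂ := (∑ b ∈ red r, Φ b) / (Nat.totient r : ℂ) with hm
  set Ψ : ℕ → ℂ := fun c => if Nat.Coprime c r then Φ (inv c r) - m else 0 with hΨ
  have htot : 0 < Nat.totient r := Nat.totient_pos.mpr hr
  have htotc : (Nat.totient r : ℂ) ≠ 0 := by exact_mod_cast htot.ne'
  have hm2 : m = ∑ p ∈ P, a p * (ram r (-(l * p)) / (Nat.totient r : ℂ)) := by
    rw [hm, hΦ]
    simp only
    rw [sum_comm, sum_div]
    refine sum_congr rfl fun p _ => ?_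
    rw [← mul_sum, mul_div_assoc]
    rfl
  have hsum0 : ∑ c ∈ range r, Ψ c = 0 := by
    rw [hΨ]
    simp only
    rw [← sum_filter]
    show ∑ c ∈ red r, (Φ (inv c r) - m) = 0
    rw [sum_sub_distrib, sum_red_inv r hr Φ, sum_const, card_red, nsmul_eq_mul, hm]
    field_simp
    ring
  have h1 : ∑ q ∈ Q, ∑ p ∈ P, KK r l q p * (a p * β q) = ∑ q ∈ Q, β q * Ψ (q % r) := by
    refine sum_congr rfl fun q _ => ?_
    rw [hΨ]
    simp only
    unfold KK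
    by_cases hc : Nat.Coprime q r
    · have hc' : Nat.Coprime (q % r) r := (coprime_mod_iff q r).mpr hc
      have hi : inv (q % r) r = inv q r := inv_congr (by simp)
      rw [if_pos hc', hi, hm2, hΦ]
      simp_rw [if_pos hc]
      rw [mul_sub, mul_sum, mul_sum, ← sum_sub_distrib]
      refine sum_congr rfl fun p _ => ?_
      ring
    · have hc' : ¬ Nat.Coprime (q % r) r := fun h => hc ((coprime_mod_iff q r).mp h)
      simp_rw [if_neg hc, if_neg hc']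
      simp
  have h2 : ∑ c ∈ range r, ‖Ψ c‖ ^ 2 ≤ ∑ b ∈ red r, ‖∑ p ∈ P, a p * e (p * ((b : ℝ) / r))‖ ^ 2 := by
    have e1 : ∑ c ∈ range r, ‖Ψ c‖ ^ 2 = ∑ c ∈ red r, ‖Φ (inv c r) - m‖ ^ 2 := by
      unfold red
      rw [sum_filter]
      refine sum_congr rfl fun c _ => ?_
      rw [hΨ]
      simp only
      split_ifs
      · rfl
      · simp
    rw [e1, sum_red_inv r hr (fun b => ‖Φ b - m‖ ^ 2)]
    refine (variance_le (red r) Φ (Nat.totient r) (card_red r) htot).trans (le_of_eq ?_)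
    have e2 : ∀ b : ℕ, ‖Φ b‖ ^ 2
        = (fun t : ℝ => ‖∑ p ∈ P, a p * e (p * t)‖ ^ 2) (((-l : ℤ) : ℝ) * ((b : ℝ) / r)) := by
      intro b
      rw [hΦ]
      simp only
      congr 2
      refine sum_congr rfl fun p _ => ?_
      congr 2
      push_cast
      ring
    simp_rw [e2]
    apply sum_red_mul r hr (-l) hl.neg_left (fun t : ℝ => ‖∑ p ∈ P, a p * e (p * t)‖ ^ 2)
    intro t k
    congr 2
    refine sum_congr rfl fun p _ => ?_
    congr 1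
    have : (p : ℝ) * (t + k) = p * t + ((p * k : ℤ) : ℝ) := by push_cast; ring
    rw [this, e_add_int]
  rw [h1]
  refine (class_sum_bound r hr Q β Ψ hsum0).trans ?_
  exact mul_le_mul_of_nonneg_right h2 (sum_nonneg fun _ _ => by positivity)

end Pool.Agent.H92.EH
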