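import Mathlib

/-!
Separation of variables in an exponential kernel.
-/

set_option autoImplicit false

namespace Pool.Agent.H92.EH

open Finset

theorem hasSum_cexp (z : ℂ) : HasSum (fun n : ℕ => z ^ n / (n.factorial : ℂ)) (Complex.exp z) := by
  have h := NormedSpace.expSeries_div_hasSum_exp (𝔸 := ℂ) z
  rwa [← Complex.exp_eq_exp_ℂ] at h

theorem hasSum_rexp (z : ℝ) : HasSum (fun n : ℕ => z ^ n / (n.factorial : ℝ)) (Real.exp z) := by
  have h := NormedSpace.expSeries_div_hasSum_exp (𝔸 := ℝ) z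
  rwa [← Real.exp_eq_exp_ℝ] at h

/-- If all the moments are bounded then so is the exponential sum. -/
theorem exp_sep {I J : Type*} (s : Finset I) (t : Finset J) (K : I → J → ℂ) (w : J → ℂ)
    (z : I → ℂ) (Z B : ℝ) (hZ : 0 ≤ Z) (hz : ∀ i ∈ s, ‖z i‖ ≤ Z)
    (hB : ∀ k : ℕ, ∑ i ∈ s, ‖∑ j ∈ t, K i j * w j ^ k‖ ≤ B) :
    ∑ i ∈ s, ‖∑ j ∈ t, K i j * Complex.exp (z i * w j)‖ ≤ Real.exp Z * B := by
  set T : I → ℂ := fun i => ∑ j ∈ t, K i j * Complex.exp (z i * w j) with hT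
  have h1 : ∀ i, HasSum (fun k : ℕ => z i ^ k / (k.factorial : ℂ) * ∑ j ∈ t, K i j * w j ^ k)
      (T i) := by
    intro i
    have h2 : ∀ j ∈ t, HasSum (fun k : ℕ => K i j * ((z i * w j) ^ k / (k.factorial : ℂ)))
        (K i j * Complex.exp (z i * w j)) := fun j _ => (hasSum_cexp (z i * w j)).mul_left _
    have h3 := hasSum_sum h2
    have h4 : (fun k : ℕ => z i ^ k / (k.factorial : ℂ) * ∑ j ∈ t, K i j * w j ^ k)
        = (fun k : ℕ => ∑ j ∈ t, K i j * ((z i * w j) ^ k / (k.factorial : ℂ))) := by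
      funext k
      rw [mul_sum]
      refine sum_congr rfl fun j _ => ?_
      rw [mul_pow]
      ring
    rw [h4]
    exact h3
  set c : I → ℂ := fun i => (starRingEnd ℂ) (T i) / ‖T i‖ with hc
  have hcT : ∀ i, c i * T i = (‖T i‖ : ℂ) := by
    intro i
    rw [hc]
    simp only
    by_cases h0 : T i = 0
    · simp [h0]
    · have h1 : (‖T i‖ : ℂ) ≠ 0 := by
        rw [Ne, Complex.ofReal_eq_zero, norm_eq_zero]
        exact h0
      rw [div_mul_eq_mul_div, Complex.conj_mul', pow_two, mul_div_assoc, div_self h1, mul_one]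
  have hcn : ∀ i, ‖c i‖ ≤ 1 := by
    intro i
    rw [hc]
    simp only
    rw [norm_div, RCLike.norm_conj, Complex.norm_real, norm_norm]
    exact div_self_le_one _
  have h5 : HasSum (fun k : ℕ => ∑ i ∈ s, c i * (z i ^ k / (k.factorial : ℂ)
      * ∑ j ∈ t, K i j * w j ^ k)) (∑ i ∈ s, c i * T i) :=
    hasSum_sum fun i _ => (h1 i).mul_left _
  have h6 : ∑ i ∈ s, c i * T i = ((∑ i ∈ s, ‖T i‖ : ℝ) : ℂ) := by
    rw [Complex.ofReal_sum]
    exact sum_congr rfl fun i _ => hcT i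
  have h7 : ∀ k : ℕ, ‖∑ i ∈ s, c i * (z i ^ k / (k.factorial : ℂ)
      * ∑ j ∈ t, K i j * w j ^ k)‖ ≤ Z ^ k / (k.factorial : ℝ) * B := by
    intro k
    refine (norm_sum_le _ _).trans ?_
    calc ∑ i ∈ s, ‖c i * (z i ^ k / (k.factorial : ℂ) * ∑ j ∈ t, K i j * w j ^ k)‖
        ≤ ∑ i ∈ s, Z ^ k / (k.factorial : ℝ) * ‖∑ j ∈ t, K i j * w j ^ k‖ := by
          refine sum_le_sum fun i hi => ?_
          have h11 : ‖z i ^ k / (k.factorial : ℂ)‖ = ‖z i‖ ^ k / (k.factorial : ℝ) := by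
            rw [norm_div, norm_pow, Complex.norm_natCast]
          rw [norm_mul (c i), norm_mul (z i ^ k / (k.factorial : ℂ)), h11]
          have h8 : ‖z i‖ ^ k ≤ Z ^ k := pow_le_pow_left₀ (norm_nonneg _) (hz i hi) k
          have h9 : ‖z i‖ ^ k / (k.factorial : ℝ) ≤ Z ^ k / (k.factorial : ℝ) :=
            div_le_div_of_nonneg_right h8 (by positivity)
          calc ‖c i‖ * (‖z i‖ ^ k / (k.factorial : ℝ) * ‖∑ j ∈ t, K i j * w j ^ k‖)
              ≤ 1 * (Z ^ k / (k.factorial : ℝ) * ‖∑ j ∈ t, K i j * w j ^ k‖) := by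
                apply mul_le_mul (hcn i) _ (by positivity) (by norm_num)
                exact mul_le_mul_of_nonneg_right h9 (norm_nonneg _)
            _ = _ := one_mul _
      _ = Z ^ k / (k.factorial : ℝ) * ∑ i ∈ s, ‖∑ j ∈ t, K i j * w j ^ k‖ := by rw [mul_sum]
      _ ≤ Z ^ k / (k.factorial : ℝ) * B := by
          exact mul_le_mul_of_nonneg_left (hB k) (by positivity)
  have h10 := tsum_of_norm_bounded ((hasSum_rexp Z).mul_right B) h7
  rw [h5.tsum_eq, h6, Complex.norm_real, Real.norm_of_nonneg (sum_nonneg fun _ _ => norm_nonneg _)]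
    at h10
  exact h10

end Pool.Agent.H92.EH
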