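import Mathlib
import Pool.Agent.H92.EH2.Bilin2
import Pool.Agent.H92.EH2.Sep
import Pool.Agent.H92.EH.Pairs

/-!
The error term for a set of moduli.
-/

set_option autoImplicit false

namespace Pool.Agent.H92.EH

open Finset

/-- Primes in `(N, 8N]`. -/
def RR (N : ℕ) : Finset ℕ := (Ioc N (8 * N)).filter Nat.Prime

theorem mem_RR {N r : ℕ} : r ∈ RR N ↔ (N < r ∧ r ≤ 8 * N) ∧ Nat.Prime r := by
  unfold RR
  rw [mem_filter, mem_Ioc]

theorem red_prime {r : ℕ} (hr : Nat.Prime r) : red r = Ico 1 r := by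
  ext b
  rw [mem_red, mem_Ico]
  constructor
  · rintro ⟨h1, h2⟩
    refine ⟨?_, h1⟩
    rcases Nat.eq_zero_or_pos b with h | h
    · rw [h, Nat.coprime_zero_left] at h2
      exact absurd h2 hr.one_lt.ne'
    · exact h
  · rintro ⟨h1, h2⟩
    exact ⟨h2, (Nat.coprime_of_lt_prime (by omega) h2 hr).symm⟩

/-- The moment bound. -/
theorem moment_bound (x A N Λ : ℕ) (Q : Finset ℕ) (hx : 0 < x) (hA : 0 < A) (hN0 : 0 < N)
    (hQ : Q ⊆ Ioc A (2 * A)) (hN : (8 * N) ^ 2 ≤ x) (hΛ : Λ ≤ N) (k : ℕ) :
    ∑ i ∈ RR N ×ˢ Icc 1 Λ, ‖∑ q ∈ Q, ∑ p ∈ (Icc 1 x).filter Nat.Prime,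
        KK i.1 i.2 q p * ((((p : ℝ) / x) ^ k : ℝ) * (((A : ℝ) / q) ^ k : ℝ) : ℂ)‖
      ≤ Λ * Real.sqrt (25 * (2 * A + (8 * N) ^ 2) * Q.card * x * Nat.primeCounting x / N) := by
  have hx' : (0 : ℝ) < x := by exact_mod_cast hx
  have hA' : (0 : ℝ) < A := by exact_mod_cast hA
  have hN' : (0 : ℝ) < N := by exact_mod_cast hN0
  set Pr := (Icc 1 x).filter Nat.Prime with hPr
  set a : ℕ → ℂ := fun p => ((((p : ℝ) / x) ^ k : ℝ) : ℂ) with ha
  set β : ℕ → ℂ := fun q => ((((A : ℝ) / q) ^ k : ℝ) : ℂ) with hβ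
  set X : ℕ → ℝ := fun r => ∑ b ∈ red r, ‖∑ p ∈ Pr, a p * e (p * ((b : ℝ) / r))‖ ^ 2 with hX
  set Y : ℕ → ℝ := fun r => ∑ h ∈ Ico 1 r, ‖∑ q ∈ Q, β q * e (q * ((h : ℝ) / r))‖ ^ 2 with hY
  have hX0 : ∀ r, 0 ≤ X r := fun r => sum_nonneg fun _ _ => by positivity
  have hY0 : ∀ r, 0 ≤ Y r := fun r => sum_nonneg fun _ _ => by positivity
  -- each term
  have h1 : ∀ r ∈ RR N, ∀ l ∈ Icc 1 Λ, ‖∑ q ∈ Q, ∑ p ∈ Pr, KK r l q p * (a p * β q)‖
      ≤ Real.sqrt (1 / N) * (Real.sqrt (X r) * Real.sqrt (Y r)) := by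
    intro r hr l hl
    rw [mem_RR] at hr
    rw [mem_Icc] at hl
    have hr0 : 0 < r := by omega
    have hr' : (0 : ℝ) < r := by exact_mod_cast hr0
    have hcop : IsCoprime (l : ℤ) (r : ℤ) := by
      rw [Nat.isCoprime_iff_coprime]
      exact (Nat.coprime_of_lt_prime (by omega) (by omega) hr.2).symm
    have h2 := bilin r hr0 (l : ℤ) hcop Q Pr β a
    have h3 : ‖∑ q ∈ Q, ∑ p ∈ Pr, KK r l q p * (a p * β q)‖ ^ 2 ≤ (1 / N) * (X r * Y r) := by
      have h4 : (N : ℝ) * ‖∑ q ∈ Q, ∑ p ∈ Pr, KK r l q p * (a p * β q)‖ ^ 2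
          ≤ r * ‖∑ q ∈ Q, ∑ p ∈ Pr, KK r l q p * (a p * β q)‖ ^ 2 := by
        apply mul_le_mul_of_nonneg_right _ (by positivity)
        exact_mod_cast hr.1.1.le
      rw [one_div, inv_mul_eq_div, le_div_iff₀ hN']
      linarith
    rw [← Real.sqrt_mul (hX0 r), ← Real.sqrt_mul (by positivity)]
    exact Real.le_sqrt_of_sq_le h3
  -- the large sieve
  have hsX : ∑ r ∈ RR N, X r ≤ 5 * x * Nat.primeCounting x := by
    have h2 := farey_ls (8 * N) x x hx hN le_rfl (fun n => if Nat.Prime n then a n else 0)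
    calc ∑ r ∈ RR N, X r ≤ ∑ r ∈ Icc 1 (8 * N), X r := by
          apply sum_le_sum_of_subset_of_nonneg
          · intro r hr
            rw [mem_RR] at hr
            rw [mem_Icc]
            omega
          · intro _ _ _
            exact hX0 _
      _ = ∑ r ∈ Icc 1 (8 * N), ∑ b ∈ red r, ‖∑ n ∈ Icc 1 x,
            (if Nat.Prime n then a n else 0) * e (n * ((b : ℝ) / r))‖ ^ 2 := by
          refine sum_congr rfl fun r _ => ?_
          rw [hX]
          refine sum_congr rfl fun b _ => ?_
          rw [hPr, sum_filter]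
          congr 2
          refine sum_congr rfl fun n _ => ?_
          split_ifs
          · rfl
          · rw [zero_mul]
      _ ≤ _ := h2
      _ ≤ 5 * x * Nat.primeCounting x := by
          apply mul_le_mul_of_nonneg_left _ (by positivity)
          rw [← card_primes, card_eq_sum_ones, Nat.cast_sum, sum_filter]
          refine sum_le_sum fun n hn => ?_
          rw [mem_Icc] at hn
          split_ifs
          · rw [ha]
            simp only
            rw [Complex.norm_real, Real.norm_of_nonneg (by positivity)]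
            have h3 : (n : ℝ) / x ≤ 1 := by
              rw [div_le_one hx']
              exact_mod_cast hn.2
            have h4 : ((n : ℝ) / x) ^ k ≤ 1 := pow_le_one₀ (by positivity) h3
            have h5 : (((n : ℝ) / x) ^ k) ^ 2 ≤ 1 := pow_le_one₀ (by positivity) h4
            simpa using h5
          · simp
  have hsY : ∑ r ∈ RR N, Y r ≤ 5 * (2 * A + (8 * N) ^ 2) * Q.card := by
    classical
    have h2 := farey_ls (8 * N) (2 * A) (2 * A + (8 * N) ^ 2) (by omega) (by omega) (by omega)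
      (fun n => if n ∈ Q then β n else 0)
    calc ∑ r ∈ RR N, Y r ≤ ∑ r ∈ Icc 1 (8 * N), ∑ b ∈ red r, ‖∑ n ∈ Icc 1 (2 * A),
            (if n ∈ Q then β n else 0) * e (n * ((b : ℝ) / r))‖ ^ 2 := by
          have h3 : ∀ r ∈ RR N, Y r = ∑ b ∈ red r, ‖∑ n ∈ Icc 1 (2 * A),
            (if n ∈ Q then β n else 0) * e (n * ((b : ℝ) / r))‖ ^ 2 := by
            intro r hr
            rw [mem_RR] at hr
            rw [hY, red_prime hr.2]
            simp only
            refine sum_congr rfl fun b _ => ?_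
            congr 2
            have h4 : Q = (Icc 1 (2 * A)).filter (fun n => n ∈ Q) := by
              ext n
              rw [mem_filter, mem_Icc]
              constructor
              · intro h
                have := mem_Ioc.mp (hQ h)
                exact ⟨by omega, h⟩
              · exact fun h => h.2
            conv_lhs => rw [h4]
            rw [sum_filter]
            refine sum_congr rfl fun n _ => ?_
            split_ifs
            · rfl
            · rw [zero_mul]
          rw [sum_congr rfl h3]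
          apply sum_le_sum_of_subset_of_nonneg
          · intro r hr
            rw [mem_RR] at hr
            rw [mem_Icc]
            omega
          · intro _ _ _
            exact sum_nonneg fun _ _ => by positivity
      _ ≤ _ := h2
      _ ≤ 5 * (2 * A + (8 * N) ^ 2) * Q.card := by
          push_cast
          apply mul_le_mul_of_nonneg_left _ (by positivity)
          have h5 : ∀ n ∈ Icc 1 (2 * A), ‖(if n ∈ Q then β n else 0)‖ ^ 2
              ≤ (if n ∈ Q then (1 : ℝ) else 0) := by
            intro n _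
            split_ifs with h
            · have hn := mem_Ioc.mp (hQ h)
              have hn' : (0 : ℝ) < n := by exact_mod_cast (by omega : 0 < n)
              rw [hβ]
              simp only
              rw [Complex.norm_real, Real.norm_of_nonneg (by positivity)]
              have h3 : (A : ℝ) / n ≤ 1 := by
                rw [div_le_one hn']
                exact_mod_cast hn.1.le
              have h4 : ((A : ℝ) / n) ^ k ≤ 1 := pow_le_one₀ (by positivity) h3
              exact pow_le_one₀ (by positivity) h4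
            · simp
          refine (sum_le_sum h5).trans ?_
          rw [← sum_filter, sum_const, nsmul_eq_mul, mul_one]
          have h6 : ((Icc 1 (2 * A)).filter (fun n => n ∈ Q)).card ≤ Q.card := by
            apply card_le_card
            intro n hn
            exact (mem_filter.mp hn).2
          exact_mod_cast h6
  calc ∑ i ∈ RR N ×ˢ Icc 1 Λ, ‖∑ q ∈ Q, ∑ p ∈ Pr,
        KK i.1 i.2 q p * ((((p : ℝ) / x) ^ k : ℝ) * (((A : ℝ) / q) ^ k : ℝ) : ℂ)‖
      = ∑ r ∈ RR N, ∑ l ∈ Icc 1 Λ, ‖∑ q ∈ Q, ∑ p ∈ Pr, KK r l q p * (a p * β q)‖ := by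
        rw [sum_product]
    _ ≤ ∑ r ∈ RR N, ∑ l ∈ Icc 1 Λ, Real.sqrt (1 / N) * (Real.sqrt (X r) * Real.sqrt (Y r)) :=
        sum_le_sum fun r hr => sum_le_sum fun l hl => h1 r hr l hl
    _ = Λ * Real.sqrt (1 / N) * ∑ r ∈ RR N, Real.sqrt (X r) * Real.sqrt (Y r) := by
        rw [mul_sum]
        refine sum_congr rfl fun r _ => ?_
        rw [sum_const, Nat.card_Icc, nsmul_eq_mul, Nat.add_sub_cancel]
        ring
    _ ≤ Λ * Real.sqrt (1 / N) * (Real.sqrt (5 * x * Nat.primeCounting x)
          * Real.sqrt (5 * (2 * A + (8 * N) ^ 2) * Q.card)) := by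
        apply mul_le_mul_of_nonneg_left _ (by positivity)
        refine (Real.sum_sqrt_mul_sqrt_le _ hX0 hY0).trans ?_
        exact mul_le_mul (Real.sqrt_le_sqrt hsX) (Real.sqrt_le_sqrt hsY) (Real.sqrt_nonneg _)
          (Real.sqrt_nonneg _)
    _ = Λ * Real.sqrt (25 * (2 * A + (8 * N) ^ 2) * Q.card * x * Nat.primeCounting x / N) := by
        rw [mul_assoc, ← Real.sqrt_mul (by positivity), ← Real.sqrt_mul (by positivity)]
        congr 2
        field_simp
        ring

end Pool.Agent.H92.EH
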