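import Mathlib
import Pool.Agent.H92.EH2.Err2

/-!
The main inequality for a set of moduli.
-/

set_option autoImplicit false

namespace Pool.Agent.H92.EH

open Finset

/-- The sum over `q` attached to a pair. -/
noncomputable def VV (x : ℕ) (Q : Finset ℕ) (i : ℕ × ℕ) : ℂ :=
  ∑ q ∈ Q.filter (fun q => Nat.Coprime q i.1), ∑ p ∈ (Icc 1 x).filter Nat.Prime,
    e (((i.2 : ℤ) * inv i.1 q : ℤ) * ((p : ℝ) / q))

/-- The expected value of `VV`. -/
noncomputable def GG (x : ℕ) (Q : Finset ℕ) (i : ℕ × ℕ) : ℂ :=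
  ∑ q ∈ Q.filter (fun q => Nat.Coprime q i.1), ∑ p ∈ (Icc 1 x).filter Nat.Prime,
    (ram i.1 (-((i.2 : ℤ) * p)) / (Nat.totient i.1 : ℂ)) * e ((p : ℝ) * ((i.2 : ℝ) / (q * i.1)))

theorem VV_sub_GG (x A : ℕ) (hx : 0 < x) (hA : 0 < A) (Q : Finset ℕ) (hQ : ∀ q ∈ Q, 0 < q)
    (i : ℕ × ℕ) (hi : 0 < i.1) :
    VV x Q i - GG x Q i = ∑ j ∈ Q ×ˢ (Icc 1 x).filter Nat.Prime,
      KK i.1 i.2 j.1 j.2 * Complex.exp ((((2 * Real.pi * ((i.2 : ℝ) * x / (A * i.1)) : ℝ) : ℂ)
        * Complex.I) * ((((j.2 : ℝ) / x) * ((A : ℝ) / j.1) : ℝ) : ℂ)) := by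
  have hx' : (x : ℝ) ≠ 0 := by exact_mod_cast hx.ne'
  have hA' : (A : ℝ) ≠ 0 := by exact_mod_cast hA.ne'
  have hi' : (i.1 : ℝ) ≠ 0 := by exact_mod_cast hi.ne'
  rw [sum_product]
  unfold VV GG
  rw [← sum_sub_distrib, sum_filter]
  refine sum_congr rfl fun q hq => ?_
  have hq0 := hQ q hq
  have hq' : (q : ℝ) ≠ 0 := by exact_mod_cast hq0.ne'
  rw [← sum_sub_distrib]
  split_ifs with hc
  · refine sum_congr rfl fun p _ => ?_
    unfold KK
    rw [if_pos hc]
    have h1 : (((i.2 : ℤ) * inv i.1 q : ℤ) : ℝ) * ((p : ℝ) / q)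
        = (((i.2 : ℤ) * p : ℤ) : ℝ) * ((inv i.1 q : ℝ) / q) := by
      push_cast
      ring
    have h2 : (((i.2 : ℤ) * p : ℤ) : ℝ) * (1 / (q * i.1)) = (p : ℝ) * ((i.2 : ℝ) / (q * i.1)) := by
      push_cast
      ring
    have h3 : Complex.exp ((((2 * Real.pi * ((i.2 : ℝ) * x / (A * i.1)) : ℝ) : ℂ)
        * Complex.I) * ((((p : ℝ) / x) * ((A : ℝ) / q) : ℝ) : ℂ))
        = e ((p : ℝ) * ((i.2 : ℝ) / (q * i.1))) := by
      unfold e
      congr 1
      have h4 : (2 * Real.pi * ((i.2 : ℝ) * x / (A * i.1))) * (((p : ℝ) / x) * ((A : ℝ) / q))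
          = 2 * Real.pi * ((p : ℝ) * ((i.2 : ℝ) / (q * i.1))) := by
        field_simp
      rw [← h4]
      push_cast
      ring
    rw [h1, e_recip hq0 hi hc, h2, h3]
    ring
  · symm
    apply sum_eq_zero
    intro p _
    unfold KK
    rw [if_neg hc, zero_mul]

/-- The error is small on average. -/
theorem sum_error (x A N Λ : ℕ) (Q : Finset ℕ) (hx : 0 < x) (hA : 0 < A) (hN0 : 0 < N)
    (hQ : Q ⊆ Ioc A (2 * A)) (hN : (8 * N) ^ 2 ≤ x) (hΛ : Λ ≤ N) (hΛ2 : 8 * x * Λ ≤ N * A) :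
    ∑ i ∈ RR N ×ˢ Icc 1 Λ, ‖VV x Q i - GG x Q i‖
      ≤ 3 * (Λ * Real.sqrt (25 * (2 * A + (8 * N) ^ 2) * Q.card * x
          * Nat.primeCounting x / N)) := by
  have hx' : (0 : ℝ) < x := by exact_mod_cast hx
  have hA' : (0 : ℝ) < A := by exact_mod_cast hA
  have hN' : (0 : ℝ) < N := by exact_mod_cast hN0
  have hQ0 : ∀ q ∈ Q, 0 < q := by
    intro q hq
    have := mem_Ioc.mp (hQ hq)
    omega
  have h1 : ∑ i ∈ RR N ×ˢ Icc 1 Λ, ‖VV x Q i - GG x Q i‖
      = ∑ i ∈ RR N ×ˢ Icc 1 Λ, ‖∑ j ∈ Q ×ˢ (Icc 1 x).filter Nat.Prime,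
      KK i.1 i.2 j.1 j.2 * Complex.exp ((((2 * Real.pi * ((i.2 : ℝ) * x / (A * i.1)) : ℝ) : ℂ)
        * Complex.I) * ((((j.2 : ℝ) / x) * ((A : ℝ) / j.1) : ℝ) : ℂ))‖ := by
    refine sum_congr rfl fun i hi => ?_
    rw [mem_product, mem_RR] at hi
    rw [VV_sub_GG x A hx hA Q hQ0 i (by omega)]
  rw [h1]
  refine (exp_sep (RR N ×ˢ Icc 1 Λ) (Q ×ˢ (Icc 1 x).filter Nat.Prime)
    (fun i j => KK i.1 i.2 j.1 j.2) (fun j => ((((j.2 : ℝ) / x) * ((A : ℝ) / j.1) : ℝ) : ℂ))
    (fun i => (((2 * Real.pi * ((i.2 : ℝ) * x / (A * i.1)) : ℝ) : ℂ) * Complex.I)) 1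
    (Λ * Real.sqrt (25 * (2 * A + (8 * N) ^ 2) * Q.card * x * Nat.primeCounting x / N))
    (by norm_num) ?_ ?_).trans ?_
  · intro i hi
    rw [mem_product, mem_RR, mem_Icc] at hi
    have hr : (N : ℝ) ≤ i.1 := by exact_mod_cast hi.1.1.1.le
    have hr' : (0 : ℝ) < i.1 := by linarith
    have hl : (i.2 : ℝ) ≤ Λ := by exact_mod_cast hi.2.2
    have h2 : (8 : ℝ) * x * Λ ≤ N * A := by exact_mod_cast hΛ2
    have h3 : (i.2 : ℝ) * x / (A * i.1) ≤ 1 / 8 := by
      rw [div_le_div_iff₀ (by positivity) (by norm_num)]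
      have h4 : (i.2 : ℝ) * x ≤ Λ * x := mul_le_mul_of_nonneg_right hl hx'.le
      have h5 : (N : ℝ) * A ≤ i.1 * A := mul_le_mul_of_nonneg_right hr hA'.le
      nlinarith
    rw [norm_mul, Complex.norm_I, mul_one, Complex.norm_real, Real.norm_of_nonneg (by positivity)]
    have h6 := Real.pi_lt_d2
    have h7 := Real.pi_pos
    calc 2 * Real.pi * ((i.2 : ℝ) * x / (A * i.1)) ≤ 2 * 3.15 * (1 / 8) := by
          apply mul_le_mul (by linarith) h3 (by positivity) (by norm_num)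
      _ ≤ 1 := by norm_num
  · intro k
    refine le_trans (le_of_eq ?_) (moment_bound x A N Λ Q hx hA hN0 hQ hN hΛ k)
    refine sum_congr rfl fun i _ => ?_
    rw [sum_product]
    congr 1
    refine sum_congr rfl fun q _ => sum_congr rfl fun p _ => ?_
    simp only
    congr 1
    push_cast
    rw [mul_pow]
  · apply mul_le_mul_of_nonneg_right _ (by positivity)
    have := Real.exp_one_lt_d9
    linarith

/-- Lower bound for the main term. -/
theorem neg_re_GG (x A N Λ : ℕ) (Q : Finset ℕ) (hx : 0 < x) (hA : 0 < A) (hN0 : 0 < N)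
    (hQ : Q ⊆ Ioc A (2 * A)) (hΛ : Λ ≤ N) (hΛ2 : 8 * x * Λ ≤ N * A)
    (i : ℕ × ℕ) (hi : i ∈ RR N ×ˢ Icc 1 Λ) :
    ((Q.filter (fun q => Nat.Coprime q i.1)).card : ℝ)
      * ((Nat.primeCounting x : ℝ) / (16 * N) - 3) ≤ -(GG x Q i).re := by
  have hx' : (0 : ℝ) < x := by exact_mod_cast hx
  have hA' : (0 : ℝ) < A := by exact_mod_cast hA
  have hN' : (0 : ℝ) < N := by exact_mod_cast hN0
  rw [mem_product, mem_RR, mem_Icc] at hi
  obtain ⟨⟨⟨hr1, hr2⟩, hrp⟩, hl1, hl2⟩ := hi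
  set r := i.1 with hr
  set l := i.2 with hl
  have hr0 : 0 < r := by omega
  have hr' : (0 : ℝ) < r := by exact_mod_cast hr0
  have hrN : (N : ℝ) ≤ r := by exact_mod_cast hr1.le
  have hr8 : (r : ℝ) ≤ 8 * N := by exact_mod_cast hr2
  have hr2' : (2 : ℝ) ≤ r := by exact_mod_cast hrp.two_le
  have hlΛ : (l : ℝ) ≤ Λ := by exact_mod_cast hl2
  have h2 : (8 : ℝ) * x * Λ ≤ N * A := by exact_mod_cast hΛ2
  have htot : (Nat.totient r : ℝ) = r - 1 := by
    rw [Nat.totient_prime hrp, Nat.cast_sub hrp.one_lt.le, Nat.cast_one]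
  have htotc : ((Nat.totient r : ℕ) : ℂ) = ((r - 1 : ℝ) : ℂ) := by
    rw [← htot]
    push_cast
    rfl
  have hmu : ((ArithmeticFunction.moebius r : ℤ) : ℂ) = -1 := by
    rw [ArithmeticFunction.moebius_apply_prime hrp]
    norm_num
  have hterm : ∀ q ∈ Q.filter (fun q => Nat.Coprime q r),
      (∑ p ∈ (Icc 1 x).filter Nat.Prime, (ram r (-((l : ℤ) * p)) / (Nat.totient r : ℂ))
        * e ((p : ℝ) * ((l : ℝ) / (q * r)))).re
      ≤ -((Nat.primeCounting x : ℝ) / (16 * N) - 3) := by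
    intro q hq
    rw [mem_filter] at hq
    have hqA := mem_Ioc.mp (hQ hq.1)
    have hqA' : (A : ℝ) ≤ q := by exact_mod_cast hqA.1.le
    have hq' : (0 : ℝ) < q := by linarith
    rw [Complex.re_sum]
    have h3 : ∀ p ∈ (Icc 1 x).filter Nat.Prime, ((ram r (-((l : ℤ) * p)) / (Nat.totient r : ℂ))
        * e ((p : ℝ) * ((l : ℝ) / (q * r)))).re ≤ -(1 / (16 * N)) + (if p = r then (3 : ℝ) else 0) := by
      intro p hp
      rw [mem_filter, mem_Icc] at hp
      have hpx : (p : ℝ) ≤ x := by exact_mod_cast hp.1.2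
      set t : ℝ := (p : ℝ) * ((l : ℝ) / (q * r)) with ht
      have ht0 : 0 ≤ t := by positivity
      have ht1 : t ≤ 1 / 8 := by
        have h4 : t ≤ x * ((Λ : ℝ) / (A * N)) := by
          apply mul_le_mul hpx _ (by positivity) hx'.le
          apply div_le_div₀ (by positivity) hlΛ (by positivity)
          exact mul_le_mul hqA' hrN hN'.le hq'.le
        refine h4.trans ?_
        rw [mul_div_assoc', div_le_div_iff₀ (by positivity) (by norm_num)]
        linarith
      by_cases hpr : p = r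
      · rw [if_pos hpr]
        have h5 : ‖(ram r (-((l : ℤ) * p)) / (Nat.totient r : ℂ)) * e t‖ ≤ 2 := by
          rw [norm_mul, norm_e, mul_one, norm_div, Complex.norm_natCast, htot,
            div_le_iff₀ (by linarith)]
          have h6 := norm_ram_le r (-((l : ℤ) * p))
          linarith
        have h7 := Complex.re_le_norm ((ram r (-((l : ℤ) * p)) / (Nat.totient r : ℂ)) * e t)
        have h8 : 1 / (16 * (N : ℝ)) ≤ 1 := by
          rw [div_le_one (by positivity)]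
          have : (1 : ℝ) ≤ N := by exact_mod_cast hN0
          linarith
        linarith
      · rw [if_neg hpr, add_zero]
        have hcop : IsCoprime (-((l : ℤ) * p)) (r : ℤ) := by
          apply IsCoprime.neg_left
          apply IsCoprime.mul_left
          · rw [Nat.isCoprime_iff_coprime]
            exact (Nat.coprime_of_lt_prime (by omega) (by omega) hrp).symm
          · rw [Nat.isCoprime_iff_coprime]
            exact (Nat.coprime_primes hp.2 hrp).mpr hpr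
        rw [ram_of_coprime r hr0 _ hcop, hmu, htotc]
        have h9 : (-1 / ((r - 1 : ℝ) : ℂ) * e t) = (((-(1 / ((r : ℝ) - 1))) : ℝ) : ℂ) * e t := by
          push_cast
          ring
        rw [h9, Complex.re_ofReal_mul]
        have h10 : (e t).re = Real.cos (2 * Real.pi * t) := by
          unfold e
          rw [mul_comm, Complex.exp_ofReal_mul_I_re]
        have h11 : 1 / 2 ≤ (e t).re := by
          rw [h10]
          have h12 := Real.one_sub_sq_div_two_le_cos (x := 2 * Real.pi * t)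
          have h13 := Real.pi_lt_d2
          have h14 := Real.pi_pos
          have h15 : 2 * Real.pi * t ≤ 1 := by
            calc 2 * Real.pi * t ≤ 2 * 3.15 * (1 / 8) :=
                  mul_le_mul (by linarith) ht1 ht0 (by norm_num)
              _ ≤ 1 := by norm_num
          have h16 : 0 ≤ 2 * Real.pi * t := by positivity
          nlinarith
        have h17 : 1 / (8 * (N : ℝ)) ≤ 1 / ((r : ℝ) - 1) := by
          apply one_div_le_one_div_of_le (by linarith)
          linarith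
        have h18 : 1 / (8 * (N : ℝ)) * (1 / 2) ≤ 1 / ((r : ℝ) - 1) * (e t).re :=
          mul_le_mul h17 h11 (by norm_num) (le_trans (by positivity) h17)
        have h19 : 1 / (8 * (N : ℝ)) * (1 / 2) = 1 / (16 * N) := by
          field_simp
          norm_num
        rw [h19] at h18
        linarith
    refine (sum_le_sum h3).trans ?_
    rw [sum_add_distrib, sum_const, card_primes, nsmul_eq_mul]
    have h4 : ∑ p ∈ (Icc 1 x).filter Nat.Prime, (if p = r then (3 : ℝ) else 0) ≤ 3 := by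
      rw [sum_ite_eq']
      split_ifs <;> norm_num
    have h5 : (Nat.primeCounting x : ℝ) * -(1 / (16 * N)) = -((Nat.primeCounting x : ℝ) / (16 * N)) := by
      ring
    rw [h5]
    linarith
  have hre : -(GG x Q i).re = -∑ q ∈ Q.filter (fun q => Nat.Coprime q r),
      (∑ p ∈ (Icc 1 x).filter Nat.Prime, (ram r (-((l : ℤ) * p)) / (Nat.totient r : ℂ))
        * e ((p : ℝ) * ((l : ℝ) / (q * r)))).re := by
    unfold GG
    rw [Complex.re_sum]
  rw [hre]
  have h4 := sum_le_sum hterm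
  rw [sum_const, nsmul_eq_mul] at h4
  linarith

end Pool.Agent.H92.EH
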