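import Mathlib
import Pool.Agent.H92.EH2.Main3

/-!
The main inequality for a set of moduli, conclusion.
-/

set_option autoImplicit false

namespace Pool.Agent.H92.EH

open Finset

/-- Pairs usable for the modulus `q`. -/
def PN (N Λ q : ℕ) : Finset (ℕ × ℕ) :=
  (RR N ×ˢ Icc 1 Λ).filter (fun i => Nat.Coprime q i.1)

theorem mem_PN {N Λ q : ℕ} {i : ℕ × ℕ} : i ∈ PN N Λ q ↔
    (((N < i.1 ∧ i.1 ≤ 8 * N) ∧ Nat.Prime i.1) ∧ (1 ≤ i.2 ∧ i.2 ≤ Λ)) ∧ Nat.Coprime q i.1 := by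
  unfold PN
  rw [mem_filter, mem_product, mem_RR, mem_Icc]

theorem PN_distinct {x A N Λ q : ℕ} (hΛ : Λ ≤ N) (hΛ3 : Λ * (8 * N) ≤ A) (hq : A < q)
    {i j : ℕ × ℕ} (hi : i ∈ PN N Λ q) (hj : j ∈ PN N Λ q) (hne : i ≠ j) :
    ¬ (q : ℤ) ∣ ((i.2 : ℤ) * inv i.1 q) - ((j.2 : ℤ) * inv j.1 q) := by
  intro h
  apply hne
  rw [mem_PN] at hi hj
  have h1 := inv_spec (a := i.1) (n := q) hi.2.symm
  have h2 := inv_spec (a := j.1) (n := q) hj.2.symm
  have h3 : (q : ℤ) ∣ ((i.2 * j.1 : ℕ) : ℤ) - ((j.2 * i.1 : ℕ) : ℤ) := by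
    obtain ⟨k, hk⟩ := h
    obtain ⟨k1, hk1⟩ := h1
    obtain ⟨k2, hk2⟩ := h2
    refine ⟨k * i.1 * j.1 - i.2 * j.1 * k1 + j.2 * i.1 * k2, ?_⟩
    push_cast
    linear_combination (i.1 : ℤ) * j.1 * hk - (i.2 : ℤ) * j.1 * hk1 + (j.2 : ℤ) * i.1 * hk2
  have hlt : ∀ a b : ℕ × ℕ, a.2 ≤ Λ → b.1 ≤ 8 * N → a.2 * b.1 < q := fun a b ha hb =>
    lt_of_le_of_lt ((Nat.mul_le_mul ha hb).trans hΛ3) hq
  have h4 : i.2 * j.1 = j.2 * i.1 :=
    eq_of_dvd_sub (hlt i j hi.1.2.2 hj.1.1.1.2) (hlt j i hj.1.2.2 hi.1.1.1.2) h3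
  have h5 : i.1 ∣ j.1 := by
    have h6 : i.1 ∣ i.2 * j.1 := ⟨j.2, by rw [h4]; ring⟩
    have h7 : Nat.Coprime i.1 i.2 :=
      Nat.coprime_of_lt_prime (by omega) (by omega) hi.1.1.2
    exact Nat.Coprime.dvd_of_dvd_mul_left h7 h6
  have h6 : i.1 = j.1 := (Nat.prime_dvd_prime_iff_eq hi.1.1.2 hj.1.1.2).mp h5
  have h7 : i.2 = j.2 := by
    rw [h6] at h4
    exact Nat.eq_of_mul_eq_mul_right hj.1.1.2.pos h4
  exact Prod.ext h6 h7

theorem sum_exchange2 (x N Λ : ℕ) (Q : Finset ℕ) :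
    ∑ q ∈ Q, ∑ p ∈ (Icc 1 x).filter Nat.Prime, ∑ i ∈ PN N Λ q,
        (1 : ℂ) * e (((i.2 : ℤ) * inv i.1 q : ℤ) * ((p : ℝ) / q))
      = ∑ i ∈ RR N ×ˢ Icc 1 Λ, VV x Q i := by
  have h1 : ∀ q, ∑ p ∈ (Icc 1 x).filter Nat.Prime, ∑ i ∈ PN N Λ q,
        (1 : ℂ) * e (((i.2 : ℤ) * inv i.1 q : ℤ) * ((p : ℝ) / q))
      = ∑ i ∈ RR N ×ˢ Icc 1 Λ, (if Nat.Coprime q i.1 then
          ∑ p ∈ (Icc 1 x).filter Nat.Prime,
            e (((i.2 : ℤ) * inv i.1 q : ℤ) * ((p : ℝ) / q)) else 0) := by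
    intro q
    rw [sum_comm]
    unfold PN
    rw [sum_filter]
    refine sum_congr rfl fun i _ => ?_
    split_ifs
    · simp only [one_mul]
    · rfl
  simp_rw [h1]
  rw [sum_comm]
  refine sum_congr rfl fun i _ => ?_
  rw [← sum_filter, VV]

theorem card_PN_le (N Λ q : ℕ) : ((PN N Λ q).card : ℝ) ≤ (RR N).card * Λ := by
  have h1 : (PN N Λ q).card ≤ (RR N ×ˢ Icc 1 Λ).card := card_le_card (filter_subset _ _)
  rw [card_product, Nat.card_Icc, Nat.add_sub_cancel] at h1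
  exact_mod_cast h1

/-- Upper bound through the test function inequality. -/
theorem upper2 (x A N Λ : ℕ) (Q : Finset ℕ) (hx : 0 < x) (hA : 0 < A)
    (hQ : Q ⊆ Ioc A (2 * A)) (hΛ : Λ ≤ N) (hΛ3 : Λ * (8 * N) ≤ A) :
    ‖∑ i ∈ RR N ×ˢ Icc 1 Λ, VV x Q i‖
      ≤ 2 * A * Real.sqrt ((RR N).card * Λ) * ∑ q ∈ Q, WW x q
        + Q.card * (((Nat.log 2 (2 * A) : ℕ) : ℝ) * ((RR N).card * Λ))
        + Q.card * (Nat.primeCounting x * (((Nat.log 2 (2 * A) : ℕ) : ℝ) + 1) / A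
          * ((RR N).card * (Λ : ℝ) ^ 2)) := by
  have hA' : (0 : ℝ) < A := by exact_mod_cast hA
  rw [← sum_exchange2]
  refine (norm_sum_le _ _).trans ?_
  have hq : ∀ q ∈ Q,
      ‖∑ p ∈ (Icc 1 x).filter Nat.Prime, ∑ i ∈ PN N Λ q,
        (1 : ℂ) * e (((i.2 : ℤ) * inv i.1 q : ℤ) * ((p : ℝ) / q))‖
      ≤ 2 * A * Real.sqrt ((RR N).card * Λ) * WW x q
        + ((Nat.log 2 (2 * A) : ℕ) : ℝ) * ((RR N).card * Λ)
        + Nat.primeCounting x * (((Nat.log 2 (2 * A) : ℕ) : ℝ) + 1) / A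
          * ((RR N).card * (Λ : ℝ) ^ 2) := by
    intro q hqm
    have hqm' := mem_Ioc.mp (hQ hqm)
    have hq0 : 0 < q := by omega
    have hq' : (0 : ℝ) < q := by exact_mod_cast hq0
    have hq2A : (q : ℝ) ≤ 2 * A := by exact_mod_cast hqm'.2
    have hqA : (A : ℝ) ≤ q := by exact_mod_cast hqm'.1.le
    have h1 := test_ineq x q hq0 (PN N Λ q) (fun _ => 1) (fun i => (i.2 : ℤ) * inv i.1 q) (by
      intro i hi j hj hne
      exact PN_distinct (x := x) hΛ hΛ3 hqm'.1 hi hj hne)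
    refine h1.trans ?_
    have hsq : ∑ i ∈ PN N Λ q, ‖(1 : ℂ)‖ ^ 2 ≤ (RR N).card * Λ := by
      simp only [norm_one, one_pow, sum_const, nsmul_eq_mul, mul_one]
      exact card_PN_le N Λ q
    have hone : ∑ i ∈ PN N Λ q, ‖(1 : ℂ)‖ ≤ (RR N).card * Λ := by
      simp only [norm_one, sum_const, nsmul_eq_mul, mul_one]
      exact card_PN_le N Λ q
    have hram : ∑ i ∈ PN N Λ q, ‖(1 : ℂ)‖ * ‖ram q ((i.2 : ℤ) * inv i.1 q)‖
        ≤ (RR N).card * (Λ : ℝ) ^ 2 := by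
      simp only [norm_one, one_mul]
      calc ∑ i ∈ PN N Λ q, ‖ram q ((i.2 : ℤ) * inv i.1 q)‖
          = ∑ i ∈ (RR N).filter (fun r => Nat.Coprime q r) ×ˢ Icc 1 Λ,
              ‖ram q ((i.2 : ℤ) * inv i.1 q)‖ := by
            apply sum_congr _ (fun _ _ => rfl)
            ext i
            unfold PN
            rw [mem_filter, mem_product, mem_product, mem_filter]
            tauto
        _ = ∑ r ∈ (RR N).filter (fun r => Nat.Coprime q r), ∑ l ∈ Icc 1 Λ,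
              ‖ram q ((l : ℤ) * inv r q)‖ := by rw [sum_product]
        _ ≤ ∑ r ∈ (RR N).filter (fun r => Nat.Coprime q r), (Λ : ℝ) ^ 2 := by
            refine sum_le_sum fun r hr => ?_
            exact sum_ram_le Λ q r hq0 (mem_filter.mp hr).2
        _ ≤ (RR N).card * (Λ : ℝ) ^ 2 := by
            rw [sum_const, nsmul_eq_mul]
            apply mul_le_mul_of_nonneg_right _ (by positivity)
            exact_mod_cast card_le_card (filter_subset _ _)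
    have hlog : ((Nat.log 2 q : ℕ) : ℝ) ≤ ((Nat.log 2 (2 * A) : ℕ) : ℝ) := by
      exact_mod_cast Nat.log_mono_right hqm'.2
    have hWW := WW_nonneg x q
    have t1 : WW x q * (q * Real.sqrt (∑ i ∈ PN N Λ q, ‖(1 : ℂ)‖ ^ 2))
        ≤ 2 * A * Real.sqrt ((RR N).card * Λ) * WW x q := by
      have h2 : (q : ℝ) * Real.sqrt (∑ i ∈ PN N Λ q, ‖(1 : ℂ)‖ ^ 2)
          ≤ 2 * A * Real.sqrt ((RR N).card * Λ) :=
        mul_le_mul hq2A (Real.sqrt_le_sqrt hsq) (Real.sqrt_nonneg _) (by positivity)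
      calc _ ≤ WW x q * (2 * A * Real.sqrt ((RR N).card * Λ)) := mul_le_mul_of_nonneg_left h2 hWW
        _ = _ := by ring
    have t2 : ((Nat.log 2 q : ℕ) : ℝ) * ∑ i ∈ PN N Λ q, ‖(1 : ℂ)‖
        ≤ ((Nat.log 2 (2 * A) : ℕ) : ℝ) * ((RR N).card * Λ) :=
      mul_le_mul hlog hone (sum_nonneg fun _ _ => norm_nonneg _) (by positivity)
    have t3 : (Nat.primeCounting x : ℝ) / Nat.totient q
          * ∑ i ∈ PN N Λ q, ‖(1 : ℂ)‖ * ‖ram q ((i.2 : ℤ) * inv i.1 q)‖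
        ≤ Nat.primeCounting x * (((Nat.log 2 (2 * A) : ℕ) : ℝ) + 1) / A
          * ((RR N).card * (Λ : ℝ) ^ 2) := by
      apply mul_le_mul _ hram (sum_nonneg fun _ _ => by positivity) (by positivity)
      have htot : (0 : ℝ) < Nat.totient q := by exact_mod_cast Nat.totient_pos.mpr hq0
      rw [div_le_div_iff₀ htot hA', mul_assoc]
      apply mul_le_mul_of_nonneg_left _ (by positivity)
      have h2 := le_totient_mul q
      have h3 : ((q.primeFactors.card : ℕ) : ℝ) ≤ ((Nat.log 2 (2 * A) : ℕ) : ℝ) := by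
        exact_mod_cast (card_primeFactors_le q).trans (Nat.log_mono_right hqm'.2)
      have h4 : (Nat.totient q : ℝ) * (q.primeFactors.card + 1)
          ≤ Nat.totient q * (((Nat.log 2 (2 * A) : ℕ) : ℝ) + 1) :=
        mul_le_mul_of_nonneg_left (by linarith) htot.le
      linarith
    exact add_le_add (add_le_add t1 t2) t3
  refine (sum_le_sum hq).trans (le_of_eq ?_)
  rw [sum_add_distrib, sum_add_distrib, ← mul_sum, sum_const, sum_const, nsmul_eq_mul,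
    nsmul_eq_mul]

/-- Counting the pairs `(r, q)` with `r` prime to `q`. -/
theorem sum_card_ge (A N : ℕ) (Q : Finset ℕ) (hQ : Q ⊆ Ioc A (2 * A)) :
    (Q.card : ℝ) * ((RR N).card - ((Nat.log 2 (2 * A) : ℕ) : ℝ))
      ≤ ∑ r ∈ RR N, ((Q.filter (fun q => Nat.Coprime q r)).card : ℝ) := by
  have h1 : ∑ r ∈ RR N, ((Q.filter (fun q => Nat.Coprime q r)).card : ℝ)
      = ∑ q ∈ Q, (((RR N).filter (fun r => Nat.Coprime q r)).card : ℝ) := by
    have e1 : ∀ r, ((Q.filter (fun q => Nat.Coprime q r)).card : ℝ)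
        = ∑ q ∈ Q, (if Nat.Coprime q r then (1 : ℝ) else 0) := by
      intro r
      rw [card_filter]
      push_cast
      rfl
    have e2 : ∀ q, (((RR N).filter (fun r => Nat.Coprime q r)).card : ℝ)
        = ∑ r ∈ RR N, (if Nat.Coprime q r then (1 : ℝ) else 0) := by
      intro q
      rw [card_filter]
      push_cast
      rfl
    simp_rw [e1, e2]
    rw [sum_comm]
  rw [h1]
  have h2 : ∀ q ∈ Q, ((RR N).card : ℝ) - ((Nat.log 2 (2 * A) : ℕ) : ℝ)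
      ≤ (((RR N).filter (fun r => Nat.Coprime q r)).card : ℝ) := by
    intro q hq
    have hq' := mem_Ioc.mp (hQ hq)
    have h3 : ((RR N).filter (fun r => ¬ Nat.Coprime q r)).card ≤ Nat.log 2 (2 * A) := by
      refine le_trans ?_ ((card_primeFactors_le q).trans (Nat.log_mono_right hq'.2))
      apply card_le_card
      intro r hr
      rw [mem_filter, mem_RR] at hr
      rw [Nat.mem_primeFactors]
      refine ⟨hr.1.2, ?_, by omega⟩
      by_contra hnd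
      exact hr.2 ((Nat.Prime.coprime_iff_not_dvd hr.1.2).mpr hnd).symm
    have h4 := card_filter_add_card_filter_not (s := RR N) (fun r => Nat.Coprime q r)
    have h5 : ((((RR N).filter (fun r => Nat.Coprime q r)).card : ℕ) : ℝ)
        + (((RR N).filter (fun r => ¬ Nat.Coprime q r)).card : ℝ) = (RR N).card := by
      exact_mod_cast h4
    have h6 : (((RR N).filter (fun r => ¬ Nat.Coprime q r)).card : ℝ)
        ≤ ((Nat.log 2 (2 * A) : ℕ) : ℝ) := by exact_mod_cast h3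
    linarith
  have h3 := sum_le_sum h2
  rw [sum_const, nsmul_eq_mul] at h3
  exact h3

/-- The main inequality for a set of moduli. -/
theorem main_ineq2 (x A N Λ : ℕ) (Q : Finset ℕ) (hx : 0 < x) (hA : 0 < A) (hN0 : 0 < N)
    (hQ : Q ⊆ Ioc A (2 * A)) (hN : (8 * N) ^ 2 ≤ x) (hΛ : Λ ≤ N) (hΛ2 : 8 * x * Λ ≤ N * A)
    (hΛ3 : Λ * (8 * N) ≤ A) (hm : 0 ≤ (Nat.primeCounting x : ℝ) / (16 * N) - 3) :
    Λ * ((Nat.primeCounting x : ℝ) / (16 * N) - 3)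
        * (Q.card * ((RR N).card - ((Nat.log 2 (2 * A) : ℕ) : ℝ)))
      ≤ 2 * A * Real.sqrt ((RR N).card * Λ) * ∑ q ∈ Q, WW x q
        + Q.card * (((Nat.log 2 (2 * A) : ℕ) : ℝ) * ((RR N).card * Λ))
        + Q.card * (Nat.primeCounting x * (((Nat.log 2 (2 * A) : ℕ) : ℝ) + 1) / A
          * ((RR N).card * (Λ : ℝ) ^ 2))
        + 3 * (Λ * Real.sqrt (25 * (2 * A + (8 * N) ^ 2) * Q.card * x
          * Nat.primeCounting x / N)) := by
  have h1 := upper2 x A N Λ Q hx hA hQ hΛ hΛ3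
  have h2 := sum_error x A N Λ Q hx hA hN0 hQ hN hΛ hΛ2
  have h3 : Λ * ((Nat.primeCounting x : ℝ) / (16 * N) - 3)
        * (Q.card * ((RR N).card - ((Nat.log 2 (2 * A) : ℕ) : ℝ)))
      ≤ ∑ i ∈ RR N ×ˢ Icc 1 Λ, -(GG x Q i).re := by
    calc Λ * ((Nat.primeCounting x : ℝ) / (16 * N) - 3)
        * (Q.card * ((RR N).card - ((Nat.log 2 (2 * A) : ℕ) : ℝ)))
        ≤ Λ * ((Nat.primeCounting x : ℝ) / (16 * N) - 3)
          * ∑ r ∈ RR N, ((Q.filter (fun q => Nat.Coprime q r)).card : ℝ) :=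
          mul_le_mul_of_nonneg_left (sum_card_ge A N Q hQ) (mul_nonneg (by positivity) hm)
      _ = ∑ i ∈ RR N ×ˢ Icc 1 Λ, ((Q.filter (fun q => Nat.Coprime q i.1)).card : ℝ)
            * ((Nat.primeCounting x : ℝ) / (16 * N) - 3) := by
          rw [sum_product, mul_sum]
          refine sum_congr rfl fun r _ => ?_
          simp only
          rw [sum_const, Nat.card_Icc, nsmul_eq_mul, Nat.add_sub_cancel]
          ring
      _ ≤ _ := sum_le_sum fun i hi => neg_re_GG x A N Λ Q hx hA hN0 hQ hΛ hΛ2 i hi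
  have h4 : ∑ i ∈ RR N ×ˢ Icc 1 Λ, -(GG x Q i).re
      ≤ ‖∑ i ∈ RR N ×ˢ Icc 1 Λ, VV x Q i‖ + ∑ i ∈ RR N ×ˢ Icc 1 Λ, ‖VV x Q i - GG x Q i‖ := by
    have e1 : ∑ i ∈ RR N ×ˢ Icc 1 Λ, -(GG x Q i).re = (-∑ i ∈ RR N ×ˢ Icc 1 Λ, GG x Q i).re := by
      rw [Complex.neg_re, Complex.re_sum, sum_neg_distrib]
    have e2 : -∑ i ∈ RR N ×ˢ Icc 1 Λ, GG x Q i
        = ∑ i ∈ RR N ×ˢ Icc 1 Λ, (VV x Q i - GG x Q i) - ∑ i ∈ RR N ×ˢ Icc 1 Λ, VV x Q i := by
      rw [sum_sub_distrib]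
      ring
    rw [e1]
    refine (Complex.re_le_norm _).trans ?_
    rw [e2]
    refine (norm_sub_le _ _).trans ?_
    rw [add_comm]
    exact add_le_add le_rfl (norm_sum_le _ _)
  linarith

end Pool.Agent.H92.EH
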