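import Mathlib
import Pool.Agent.H92.EH2.Err2

/-!
Primes between `N` and `8N`.
-/

set_option autoImplicit false

namespace Pool.Agent.H92.EH

open Finset Filter

theorem card_RR_eq (N : ℕ) : ((RR N).card : ℝ) = Nat.primeCounting (8 * N) - Nat.primeCounting N := by
  have h1 : (Icc 1 (8 * N)).filter Nat.Prime = RR N ∪ (Icc 1 N).filter Nat.Prime := by
    ext p
    rw [mem_union, mem_RR, mem_filter, mem_filter, mem_Icc, mem_Icc]
    constructor
    · rintro ⟨⟨h1, h2⟩, h3⟩
      by_cases h : p ≤ N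
      · right; exact ⟨⟨h1, h⟩, h3⟩
      · left; exact ⟨⟨by omega, h2⟩, h3⟩
    · rintro (⟨⟨h1, h2⟩, h3⟩ | ⟨⟨h1, h2⟩, h3⟩)
      · exact ⟨⟨h3.one_lt.le, h2⟩, h3⟩
      · exact ⟨⟨h1, by omega⟩, h3⟩
  have h2 : Disjoint (RR N) ((Icc 1 N).filter Nat.Prime) := by
    rw [disjoint_left]
    intro p h3 h4
    rw [mem_RR] at h3
    rw [mem_filter, mem_Icc] at h4
    omega
  have h3 := card_union_of_disjoint h2
  rw [← h1, card_primes, card_primes] at h3
  rw [h3]
  push_cast
  ring

theorem log_le_sqrt_eventually : ∀ᶠ t : ℝ in atTop, Real.log t ≤ 1 / 100 * Real.sqrt t := by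
  have hlo := (isLittleO_log_rpow_atTop (r := 1 / 2) (by norm_num)).def
    (c := 1 / 100) (by norm_num)
  filter_upwards [hlo, eventually_ge_atTop 1] with t ht ht1
  rw [Real.norm_of_nonneg (Real.log_nonneg ht1), Real.norm_of_nonneg (by positivity),
    ← Real.sqrt_eq_rpow] at ht
  exact ht

theorem card_RR_ge : ∀ᶠ N : ℕ in atTop, (N : ℝ) ≤ (RR N).card * Real.log N := by
  have hc : Tendsto (fun N : ℕ => (N : ℝ)) atTop atTop := tendsto_natCast_atTop_atTop
  have h1 : ∀ᶠ N : ℕ in atTop, Real.log (N : ℝ) ≤ 1 / 100 * Real.sqrt N :=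
    hc.eventually log_le_sqrt_eventually
  have h2 : ∀ᶠ N : ℕ in atTop, Real.log (8 * (N : ℝ) + 1) ≤ 1 / 100 * Real.sqrt (8 * (N : ℝ) + 1) := by
    have : Tendsto (fun N : ℕ => 8 * (N : ℝ) + 1) atTop atTop :=
      tendsto_atTop_add_const_right _ _ (hc.const_mul_atTop (by norm_num))
    exact this.eventually log_le_sqrt_eventually
  have h3 : ∀ᶠ N : ℕ in atTop, 21 ≤ Real.log (N : ℝ) :=
    (Real.tendsto_log_atTop.comp hc).eventually_ge_atTop 21
  filter_upwards [h1, h2, h3, eventually_ge_atTop 2] with N a1 a2 a3 a4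
  have hN : (2 : ℝ) ≤ N := by exact_mod_cast a4
  have hN0 : (0 : ℝ) < N := by linarith
  set L := Real.log (N : ℝ) with hL
  have hL0 : 0 < L := by linarith
  have hlog2 := Real.log_two_gt_d9
  have hlog2' := Real.log_two_lt_d9
  have hlog4 : Real.log 4 = 2 * Real.log 2 := by
    rw [show (4 : ℝ) = 2 ^ 2 by norm_num, Real.log_pow]
    norm_num
  -- the upper bound
  have hup := Chebyshev.pi_le_log4_mul_div (x := (N : ℝ)) (by linarith)
  rw [Nat.floor_natCast, Real.log_sqrt hN0.le, hlog4, ← hL] at hup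
  have hup2 : (Nat.primeCounting N : ℝ) * L ≤ 4 * Real.log 2 * N + Real.sqrt N * L := by
    have := mul_le_mul_of_nonneg_right hup hL0.le
    have e : (2 * Real.log 2 * (N : ℝ) / (L / 2) + Real.sqrt N) * L
        = 4 * Real.log 2 * N + Real.sqrt N * L := by
      field_simp
      ring
    rw [e] at this
    exact this
  -- the lower bound
  have hlow := Chebyshev.pi_ge (8 * N)
  push_cast at hlow
  have hlog8 : Real.log (8 * (N : ℝ)) = 3 * Real.log 2 + L := by
    rw [Real.log_mul (by norm_num) (by positivity), show (8 : ℝ) = 2 ^ 3 by norm_num,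
      Real.log_pow, ← hL]
    norm_num
  rw [hlog8] at hlow
  have hs : Real.sqrt N ≤ N := by
    rw [Real.sqrt_le_left hN0.le]
    nlinarith
  have hss : Real.sqrt N * Real.sqrt N = N := Real.mul_self_sqrt hN0.le
  have hs0 : 0 ≤ Real.sqrt N := Real.sqrt_nonneg _
  have hsL : Real.sqrt N * L ≤ 1 / 100 * N := by
    calc Real.sqrt N * L ≤ Real.sqrt N * (1 / 100 * Real.sqrt N) :=
          mul_le_mul_of_nonneg_left a1 hs0
      _ = 1 / 100 * N := by rw [mul_left_comm, hss]
  have hs9 : Real.log (8 * (N : ℝ) + 1) ≤ 3 / 100 * N := by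
    have e1 : Real.sqrt (8 * (N : ℝ) + 1) ≤ 3 * Real.sqrt N := by
      rw [Real.sqrt_le_left (by positivity), mul_pow, Real.sq_sqrt hN0.le]
      linarith
    linarith
  have hq : (8 * (N : ℝ) * Real.log 2 - Real.log (8 * (N : ℝ) + 1)) * L
      ≤ (Nat.primeCounting (8 * N) : ℝ) * L * (3 * Real.log 2 + L) := by
    rw [div_le_iff₀ (by linarith)] at hlow
    have := mul_le_mul_of_nonneg_right hlow hL0.le
    linarith
  have hq2 : (3 * Real.log 2 + L) ≤ 11 / 10 * L := by linarith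
  have hq3 : (8 * (N : ℝ) * Real.log 2 - Real.log (8 * (N : ℝ) + 1)) * L
      ≤ ((Nat.primeCounting (8 * N) : ℝ) * L * (11 / 10)) * L := by
    refine hq.trans ?_
    calc (Nat.primeCounting (8 * N) : ℝ) * L * (3 * Real.log 2 + L)
        ≤ (Nat.primeCounting (8 * N) : ℝ) * L * (11 / 10 * L) :=
          mul_le_mul_of_nonneg_left hq2 (by positivity)
      _ = _ := by ring
  have hq4 := le_of_mul_le_mul_right hq3 hL0
  rw [card_RR_eq, sub_mul]
  have hq5 : (0.69 : ℝ) * N ≤ Real.log 2 * N := mul_le_mul_of_nonneg_right (by linarith) hN0.le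
  have hq6 : Real.log 2 * N ≤ 0.694 * N := mul_le_mul_of_nonneg_right (by linarith) hN0.le
  linarith

end Pool.Agent.H92.EH
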