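import Mathlib

/-!
Inequalities between real numbers.
-/

set_option autoImplicit false

namespace Pool.Agent.H92.EH

theorem real_step2 (p A N Λ X l lg Rc Qc W : ℝ) (hp : 0 < p) (hA : 0 < A) (hN : 0 < N)
    (hX : 0 < X) (hl : 1 ≤ l) (hlg : 0 ≤ lg) (hQc : 0 < Qc) (hRc0 : 0 < Rc)
    (hΛ0 : 0 < Λ)
    (hpX : X ≤ 2 * l * p) (hRc : N ≤ Rc * l) (hRlg : 2 * lg ≤ Rc)
    (hm : 3 ≤ p / (32 * N)) (hlgN : 512 * lg * N ≤ p) (hN2 : 64 * N ^ 2 * (lg + 1) ≤ X)
    (hΛ : 8 * X * Λ ≤ N * A) (hΛ' : N * A ≤ 16 * X * Λ)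
    (hQ : 2 * 7680 ^ 2 * l ^ 3 * (2 * A + (8 * N) ^ 2) ≤ Qc * N)
    (hmain : Λ * (p / (16 * N) - 3) * (Qc * (Rc - lg))
      ≤ 2 * A * Real.sqrt (Rc * Λ) * W + Qc * (lg * (Rc * Λ))
        + Qc * (p * (lg + 1) / A * (Rc * Λ ^ 2))
        + 3 * (Λ * Real.sqrt (25 * (2 * A + (8 * N) ^ 2) * Qc * X * p / N))) :
    Qc * (5 / 8192 * Real.sqrt (X / A) / (l * Real.sqrt l)) ≤ W := by
  have hl0 : 0 < l := by linarith
  set M := Λ * p * Qc * Rc / (64 * N) with hM
  have hM0 : 0 < M := by positivity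
  have s1 : M ≤ Λ * (p / (16 * N) - 3) * (Qc * (Rc - lg)) := by
    have e1 : p / (32 * N) ≤ p / (16 * N) - 3 := by
      have : p / (16 * N) = p / (32 * N) + p / (32 * N) := by
        field_simp
        norm_num
      linarith
    have e2 : Rc / 2 ≤ Rc - lg := by linarith
    calc M = Λ * (p / (32 * N)) * (Qc * (Rc / 2)) := by
          rw [hM]
          field_simp
          norm_num
      _ ≤ _ := by
          apply mul_le_mul (mul_le_mul_of_nonneg_left e1 hΛ0.le)
            (mul_le_mul_of_nonneg_left e2 hQc.le) (by positivity)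
          apply mul_nonneg hΛ0.le
          exact le_trans (by positivity) e1
  have s2 : Qc * (lg * (Rc * Λ)) ≤ M / 8 := by
    have e1 : lg ≤ p / (512 * N) := by
      rw [le_div_iff₀ (by positivity)]
      linarith
    calc Qc * (lg * (Rc * Λ)) ≤ Qc * (p / (512 * N) * (Rc * Λ)) := by
          apply mul_le_mul_of_nonneg_left _ hQc.le
          exact mul_le_mul_of_nonneg_right e1 (by positivity)
      _ = M / 8 := by
          rw [hM]
          field_simp
          norm_num
  have s3 : Qc * (p * (lg + 1) / A * (Rc * Λ ^ 2)) ≤ M / 8 := by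
    have e1 : (lg + 1) * Λ * (512 * N) ≤ A := by
      have e2 : (lg + 1) * (8 * X * Λ) ≤ (lg + 1) * (N * A) :=
        mul_le_mul_of_nonneg_left hΛ (by linarith)
      have e3 : ((lg + 1) * Λ * (512 * N)) * X ≤ A * X := by
        calc ((lg + 1) * Λ * (512 * N)) * X = ((lg + 1) * (8 * X * Λ)) * (64 * N) := by ring
          _ ≤ ((lg + 1) * (N * A)) * (64 * N) := mul_le_mul_of_nonneg_right e2 (by positivity)
          _ = (64 * N ^ 2 * (lg + 1)) * A := by ring
          _ ≤ X * A := mul_le_mul_of_nonneg_right hN2 hA.le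
          _ = A * X := by ring
      exact le_of_mul_le_mul_right e3 hX
    have e4 : (lg + 1) * Λ / A ≤ 1 / (512 * N) := by
      rw [div_le_div_iff₀ hA (by positivity)]
      linarith
    calc Qc * (p * (lg + 1) / A * (Rc * Λ ^ 2)) = (Qc * p * Rc * Λ) * ((lg + 1) * Λ / A) := by
          field_simp
      _ ≤ (Qc * p * Rc * Λ) * (1 / (512 * N)) := mul_le_mul_of_nonneg_left e4 (by positivity)
      _ = M / 8 := by
          rw [hM]
          field_simp
          norm_num
  have s4 : 3 * (Λ * Real.sqrt (25 * (2 * A + (8 * N) ^ 2) * Qc * X * p / N)) ≤ M / 8 := by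
    have e1 : Real.sqrt (25 * (2 * A + (8 * N) ^ 2) * Qc * X * p / N)
        ≤ p * Qc * Rc / (1536 * N) := by
      apply Real.sqrt_le_iff.mpr
      refine ⟨by positivity, ?_⟩
      -- `7680 ^ 2 * (2 A + 64 N²) * N * X ≤ p * Qc * Rc ^ 2`
      have e2 : 7680 ^ 2 * (2 * A + (8 * N) ^ 2) * N * X ≤ p * Qc * Rc ^ 2 := by
        have e3 : N ^ 2 ≤ Rc ^ 2 * l ^ 2 := by
          rw [← mul_pow]
          exact pow_le_pow_left₀ hN.le hRc 2
        have e4 : (7680 ^ 2 * (2 * A + (8 * N) ^ 2) * N * X) * (2 * l ^ 3 * N)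
            ≤ (p * Qc * Rc ^ 2) * (2 * l ^ 3 * N) := by
          calc (7680 ^ 2 * (2 * A + (8 * N) ^ 2) * N * X) * (2 * l ^ 3 * N)
              = (2 * 7680 ^ 2 * l ^ 3 * (2 * A + (8 * N) ^ 2)) * (N ^ 2 * X) := by ring
            _ ≤ (Qc * N) * (N ^ 2 * X) := mul_le_mul_of_nonneg_right hQ (by positivity)
            _ ≤ (Qc * N) * ((Rc ^ 2 * l ^ 2) * (2 * l * p)) := by
                apply mul_le_mul_of_nonneg_left _ (by positivity)
                exact mul_le_mul e3 hpX hX.le (by positivity)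
            _ = _ := by ring
        exact le_of_mul_le_mul_right e4 (by positivity)
      rw [div_pow, div_le_div_iff₀ hN (by positivity)]
      calc 25 * (2 * A + (8 * N) ^ 2) * Qc * X * p * (1536 * N) ^ 2
          = (7680 ^ 2 * (2 * A + (8 * N) ^ 2) * N * X) * (p * Qc * N) := by ring
        _ ≤ (p * Qc * Rc ^ 2) * (p * Qc * N) := mul_le_mul_of_nonneg_right e2 (by positivity)
        _ = (p * Qc * Rc) ^ 2 * N := by ring
    calc 3 * (Λ * Real.sqrt (25 * (2 * A + (8 * N) ^ 2) * Qc * X * p / N))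
        ≤ 3 * (Λ * (p * Qc * Rc / (1536 * N))) := by
          apply mul_le_mul_of_nonneg_left _ (by norm_num)
          exact mul_le_mul_of_nonneg_left e1 hΛ0.le
      _ = M / 8 := by
          rw [hM]
          field_simp
          norm_num
  have s5 : 5 / 8 * M ≤ 2 * A * Real.sqrt (Rc * Λ) * W := by linarith
  set s := Real.sqrt (Rc * Λ) with hs
  have hs0 : 0 < s := Real.sqrt_pos.mpr (by positivity)
  have hss : s * s = Rc * Λ := Real.mul_self_sqrt (by positivity)
  have s6 : 5 / 512 * (p * Qc / N) * s ≤ 2 * A * W := by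
    have e1 : (5 / 512 * (p * Qc / N) * s) * s ≤ (2 * A * W) * s := by
      calc (5 / 512 * (p * Qc / N) * s) * s = 5 / 512 * (p * Qc / N) * (s * s) := by ring
        _ = 5 / 8 * M := by
            rw [hss, hM]
            field_simp
            norm_num
        _ ≤ 2 * A * s * W := s5
        _ = _ := by ring
    exact le_of_mul_le_mul_right e1 hs0
  have s7 : N / 4 * Real.sqrt (A / (X * l)) ≤ s := by
    apply Real.le_sqrt_of_sq_le
    rw [mul_pow, Real.sq_sqrt (by positivity)]
    have e1 : N * (N * A) ≤ (Rc * l) * (16 * X * Λ) := mul_le_mul hRc hΛ' (by positivity)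
      (by positivity)
    rw [mul_div_assoc', div_le_iff₀ (by positivity)]
    nlinarith
  have hsX : Real.sqrt (A / (X * l)) * (X / A) = Real.sqrt (X / A) / Real.sqrt l := by
    have e1 : A / (X * l) = (A / X) * (1 / l) := by field_simp
    have e2 : Real.sqrt (A / X) * (X / A) = Real.sqrt (X / A) := by
      have e3 : Real.sqrt (A / X) * Real.sqrt (X / A) = 1 := by
        rw [← Real.sqrt_mul (by positivity)]
        have : A / X * (X / A) = 1 := by field_simp
        rw [this, Real.sqrt_one]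
      have e4 : Real.sqrt (X / A) * Real.sqrt (X / A) = X / A :=
        Real.mul_self_sqrt (by positivity)
      calc Real.sqrt (A / X) * (X / A)
          = (Real.sqrt (A / X) * Real.sqrt (X / A)) * Real.sqrt (X / A) := by
            rw [mul_assoc, e4]
        _ = Real.sqrt (X / A) := by rw [e3, one_mul]
    rw [e1, Real.sqrt_mul (by positivity), Real.sqrt_div (by norm_num : (0 : ℝ) ≤ 1),
      Real.sqrt_one]
    calc Real.sqrt (A / X) * (1 / Real.sqrt l) * (X / A)
        = (Real.sqrt (A / X) * (X / A)) / Real.sqrt l := by ring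
      _ = _ := by rw [e2]
  have hsl : 0 < Real.sqrt l := Real.sqrt_pos.mpr hl0
  have s8 : 5 / 512 * (p * Qc / N) * (N / 4 * Real.sqrt (A / (X * l))) ≤ 2 * A * W :=
    (mul_le_mul_of_nonneg_left s7 (by positivity)).trans s6
  have s9 : 5 / 2048 * (p * Qc) * Real.sqrt (A / (X * l)) ≤ 2 * A * W := by
    refine le_trans (le_of_eq ?_) s8
    field_simp
    norm_num
  have s10 : X / (2 * l) ≤ p := by
    rw [div_le_iff₀ (by positivity)]
    linarith
  have s11 : 5 / 2048 * (X / (2 * l) * Qc) * Real.sqrt (A / (X * l)) ≤ 2 * A * W := by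
    refine le_trans ?_ s9
    apply mul_le_mul_of_nonneg_right _ (Real.sqrt_nonneg _)
    apply mul_le_mul_of_nonneg_left _ (by norm_num)
    exact mul_le_mul_of_nonneg_right s10 hQc.le
  have s12 : Qc * (5 / 8192 * Real.sqrt (X / A) / (l * Real.sqrt l)) * (2 * A) ≤ W * (2 * A) := by
    calc Qc * (5 / 8192 * Real.sqrt (X / A) / (l * Real.sqrt l)) * (2 * A)
        = 5 / 4096 * Qc / l * A * (Real.sqrt (X / A) / Real.sqrt l) := by
          field_simp
          norm_num
      _ = 5 / 4096 * Qc / l * A * (Real.sqrt (A / (X * l)) * (X / A)) := by rw [hsX]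
      _ = 5 / 2048 * (X / (2 * l) * Qc) * Real.sqrt (A / (X * l)) := by
          field_simp
          norm_num
      _ ≤ 2 * A * W := s11
      _ = W * (2 * A) := by ring
  exact le_of_mul_le_mul_right s12 (by positivity)

end Pool.Agent.H92.EH
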