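import Mathlib
import Pool.Agent.H92.EH2.Main4
import Pool.Agent.H92.EH2.Real2
import Pool.Agent.H92.EH2.Primes8

/-!
The bound for the exceptional set.
-/

set_option autoImplicit false

namespace Pool.Agent.H92.EH

open Finset Filter

theorem natlog_le' (n : ℕ) (hn : 1 ≤ n) : ((Nat.log 2 n : ℕ) : ℝ) ≤ 3 / 2 * Real.log n := by
  have h1 : 2 ^ Nat.log 2 n ≤ n := Nat.pow_log_le_self 2 (by omega)
  have h2 : (2 : ℝ) ^ Nat.log 2 n ≤ n := by exact_mod_cast h1
  have h3 : Real.log ((2 : ℝ) ^ Nat.log 2 n) ≤ Real.log n :=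
    Real.log_le_log (by positivity) h2
  rw [Real.log_pow] at h3
  have h4 : (2 / 3 : ℝ) ≤ Real.log 2 := by
    have := Real.log_two_gt_d9
    linarith
  have h5 : (0 : ℝ) ≤ ((Nat.log 2 n : ℕ) : ℝ) := Nat.cast_nonneg _
  nlinarith

theorem except_bound (N₀ : ℕ) (hN₀ : ∀ N : ℕ, N₀ ≤ N → (N : ℝ) ≤ (RR N).card * Real.log N)
    (x A : ℕ) (l T : ℝ) (hl : l = Real.log x) (hl1 : 4096 ≤ l) (hT : T = Real.sqrt (Real.sqrt x))
    (hTl : l ^ 3 * (N₀ + 4000) ≤ T) (hpi : (x : ℝ) ≤ 2 * l * Nat.primeCounting x)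
    (hA1 : 1 ≤ A) (hAx : A ≤ x) :
    (((Ioc A (2 * A)).filter
      (fun q : ℕ => WW x q < 5 / 8192 * Real.sqrt (x / q) / (l * Real.sqrt l))).card : ℝ)
      ≤ 2 * 7680 ^ 2 * 578 * (Real.sqrt A + x / A) * l ^ 4 := by
  set Q := (Ioc A (2 * A)).filter
      (fun q : ℕ => WW x q < 5 / 8192 * Real.sqrt (x / q) / (l * Real.sqrt l)) with hQdef
  by_contra hcon
  push Not at hcon
  have hl0 : 0 < l := by linarith
  have hx0 : 0 < x := by omega
  have hX : (0 : ℝ) < x := by exact_mod_cast hx0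
  have hX1 : (1 : ℝ) ≤ x := by exact_mod_cast hx0
  have hA' : (0 : ℝ) < A := by exact_mod_cast hA1
  have hA1' : (1 : ℝ) ≤ A := by exact_mod_cast hA1
  have hAx' : (A : ℝ) ≤ x := by exact_mod_cast hAx
  set s := Real.sqrt x with hs
  have hss : s * s = x := Real.mul_self_sqrt hX.le
  have hs1 : 1 ≤ s := Real.one_le_sqrt.mpr hX1
  have hs0 : 0 < s := by linarith
  have hTT : T * T = s := by rw [hT]; exact Real.mul_self_sqrt hs0.le
  have hT1 : 1 ≤ T := by rw [hT]; exact Real.one_le_sqrt.mpr hs1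
  have hTs : T ≤ s := by
    calc T = T * 1 := (mul_one T).symm
      _ ≤ T * T := mul_le_mul_of_nonneg_left hT1 (by linarith)
      _ = s := hTT
  have hsA : Real.sqrt A * Real.sqrt A = A := Real.mul_self_sqrt hA'.le
  have hsA1 : 1 ≤ Real.sqrt A := Real.one_le_sqrt.mpr hA1'
  have hsAs : Real.sqrt A ≤ s := Real.sqrt_le_sqrt hAx'
  have hxA : 1 ≤ (x : ℝ) / A := by rwa [one_le_div hA']
  have hQsub : Q ⊆ Ioc A (2 * A) := filter_subset _ _
  have hQcard : (Q.card : ℝ) ≤ A := by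
    have h1 := card_le_card hQsub
    rw [Nat.card_Ioc] at h1
    have h2 : Q.card ≤ A := by omega
    exact_mod_cast h2
  have hl4 : 1 ≤ l ^ 4 := one_le_pow₀ (by linarith)
  have hl2 : 1 ≤ l ^ 2 := one_le_pow₀ (by linarith)
  have hl3 : l ≤ l ^ 3 := by
    have : l * 1 ≤ l * l ^ 2 := mul_le_mul_of_nonneg_left hl2 hl0.le
    calc l = l * 1 := (mul_one l).symm
      _ ≤ l * l ^ 2 := this
      _ = l ^ 3 := by ring
  have hN₀0 : (0 : ℝ) ≤ N₀ := Nat.cast_nonneg _
  have hl3T : 4000 * l ^ 3 ≤ T := by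
    have : l ^ 3 * 4000 ≤ l ^ 3 * (N₀ + 4000) :=
      mul_le_mul_of_nonneg_left (by linarith) (by positivity)
    linarith
  -- the trivial range
  have hAbig : 512 * s * l ≤ A := by
    by_contra hsmall
    push Not at hsmall
    have h1 : (A : ℝ) * A ≤ (512 * s * l) * (512 * s * l) :=
      mul_le_mul hsmall.le hsmall.le hA'.le (by positivity)
    have h2 : (A : ℝ) ≤ 2 * 7680 ^ 2 * 578 * (Real.sqrt A + x / A) * l ^ 4 := by
      have h3 : (A : ℝ) ≤ 512 ^ 2 * (x / A) * l ^ 2 := by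
        rw [mul_assoc, div_mul_eq_mul_div, mul_div_assoc', le_div_iff₀ hA']
        calc (A : ℝ) * A ≤ (512 * s * l) * (512 * s * l) := h1
          _ = 512 ^ 2 * ((s * s) * l ^ 2) := by ring
          _ = 512 ^ 2 * (x * l ^ 2) := by rw [hss]
      have h4 : l ^ 2 ≤ l ^ 4 := pow_le_pow_right₀ (by linarith) (by norm_num)
      have h5 : 512 ^ 2 * ((x : ℝ) / A) * l ^ 2 ≤ 512 ^ 2 * ((x : ℝ) / A) * l ^ 4 :=
        mul_le_mul_of_nonneg_left h4 (by positivity)
      have h6 : 512 ^ 2 * ((x : ℝ) / A) * l ^ 4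
          ≤ 2 * 7680 ^ 2 * 578 * (Real.sqrt A + x / A) * l ^ 4 := by
        apply mul_le_mul_of_nonneg_right _ (by positivity)
        linarith
      linarith
    linarith
  have hsA' : s ≤ A := by
    have h1 : s * 1 ≤ s * (512 * l) := mul_le_mul_of_nonneg_left (by linarith) hs0.le
    have h2 : s * (512 * l) = 512 * s * l := by ring
    linarith
  -- choice of the parameters
  obtain ⟨K0, hK0⟩ : ∃ m : ℕ, m = 8 * x / A := ⟨_, rfl⟩
  obtain ⟨N, hNdef⟩ : ∃ m : ℕ, m = ⌊Real.sqrt A / l⌋₊ + (K0 + 1) := ⟨_, rfl⟩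
  have hN0 : 0 < N := by omega
  have hN' : (0 : ℝ) < N := by exact_mod_cast hN0
  have hNlow : Real.sqrt A / l ≤ N := by
    have h1 : Real.sqrt A / l < ((⌊Real.sqrt A / l⌋₊ : ℕ) : ℝ) + 1 := Nat.lt_floor_add_one _
    have h2 : ((⌊Real.sqrt A / l⌋₊ : ℕ) : ℝ) + 1 ≤ N := by
      rw [hNdef]
      push_cast
      have : (0 : ℝ) ≤ (K0 : ℝ) := Nat.cast_nonneg _
      linarith
    linarith
  have hNup : (N : ℝ) ≤ Real.sqrt A / l + 8 * x / A + 1 := by
    have h1 : ((⌊Real.sqrt A / l⌋₊ : ℕ) : ℝ) ≤ Real.sqrt A / l := Nat.floor_le (by positivity)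
    have h2 : (K0 : ℝ) ≤ ((8 * x : ℕ) : ℝ) / A := by
      rw [hK0]
      exact Nat.cast_div_le
    rw [hNdef]
    push_cast at h2 ⊢
    linarith
  have hNA : 8 * x < N * A := by
    have h1 : 8 * x < A * (K0 + 1) := by
      rw [hK0]
      exact Nat.lt_mul_div_succ (8 * x) (by omega)
    have h2 : A * (K0 + 1) ≤ A * N := Nat.mul_le_mul_left _ (by omega)
    calc 8 * x < A * (K0 + 1) := h1
      _ ≤ A * N := h2
      _ = N * A := mul_comm _ _
  obtain ⟨Λ, hΛdef⟩ : ∃ m : ℕ, m = N * A / (8 * x) := ⟨_, rfl⟩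
  have hΛ1 : 1 ≤ Λ := by
    rw [hΛdef]
    exact (Nat.one_le_div_iff (by omega)).mpr hNA.le
  have hΛ2 : 8 * x * Λ ≤ N * A := by
    rw [hΛdef]
    exact Nat.mul_div_le (N * A) (8 * x)
  have hΛ2' : (8 : ℝ) * x * Λ ≤ N * A := by exact_mod_cast hΛ2
  have hΛ0 : (0 : ℝ) < Λ := by exact_mod_cast hΛ1
  have hΛ16 : (N : ℝ) * A ≤ 16 * x * Λ := by
    have h1 : N * A < 8 * x * (Λ + 1) := by
      rw [hΛdef]
      exact Nat.lt_mul_div_succ (N * A) (by omega)
    have h2 : (N : ℝ) * A ≤ 8 * x * (Λ + 1) := by exact_mod_cast h1.le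
    have h3 : (1 : ℝ) ≤ Λ := by exact_mod_cast hΛ1
    have h4 : 8 * (x : ℝ) * 1 ≤ 8 * x * Λ := mul_le_mul_of_nonneg_left h3 (by positivity)
    linarith
  -- size of `N`
  set u := Real.sqrt l with hu
  have huu : u * u = l := Real.mul_self_sqrt hl0.le
  have hu64 : 64 ≤ u := by
    apply Real.le_sqrt_of_sq_le
    linarith
  have hu0 : 0 < u := by linarith
  have hul : u ≤ l := by
    calc u = u * 1 := (mul_one u).symm
      _ ≤ u * u := mul_le_mul_of_nonneg_left (by linarith) hu0.le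
      _ = l := huu
  have hN3 : (N : ℝ) * (64 * u) ≤ 3 * s := by
    have h1 : Real.sqrt A / l * (64 * u) ≤ s := by
      rw [div_mul_eq_mul_div, div_le_iff₀ hl0]
      calc Real.sqrt A * (64 * u) ≤ s * (u * u) :=
            mul_le_mul hsAs (mul_le_mul_of_nonneg_right hu64 hu0.le) (by positivity) hs0.le
        _ = s * l := by rw [huu]
    have h2 : 8 * (x : ℝ) / A * (64 * u) ≤ s := by
      rw [div_mul_eq_mul_div, div_le_iff₀ hA']
      calc 8 * (x : ℝ) * (64 * u) = 8 * (s * s) * (64 * u) := by rw [hss]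
        _ = s * (512 * s * u) := by ring
        _ ≤ s * (512 * s * l) := by
            apply mul_le_mul_of_nonneg_left _ hs0.le
            exact mul_le_mul_of_nonneg_left hul (by positivity)
        _ ≤ s * A := mul_le_mul_of_nonneg_left hAbig hs0.le
    have h3 : 1 * (64 * u) ≤ s := by linarith
    calc (N : ℝ) * (64 * u) ≤ (Real.sqrt A / l + 8 * x / A + 1) * (64 * u) :=
          mul_le_mul_of_nonneg_right hNup (by positivity)
      _ = Real.sqrt A / l * (64 * u) + 8 * (x : ℝ) / A * (64 * u) + 1 * (64 * u) := by ring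
      _ ≤ 3 * s := by linarith
  have hN256 : 256 * l * (N : ℝ) ^ 2 ≤ x := by
    have h1 : ((N : ℝ) * (64 * u)) ^ 2 ≤ (3 * s) ^ 2 := pow_le_pow_left₀ (by positivity) hN3 2
    have h2 : ((N : ℝ) * (64 * u)) ^ 2 = 4096 * l * (N : ℝ) ^ 2 := by
      calc ((N : ℝ) * (64 * u)) ^ 2 = 4096 * (u * u) * (N : ℝ) ^ 2 := by ring
        _ = _ := by rw [huu]
    have h3 : (3 * s) ^ 2 = 9 * x := by
      calc (3 * s) ^ 2 = 9 * (s * s) := by ring
        _ = _ := by rw [hss]
    rw [h2, h3] at h1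
    linarith
  have hN64 : (8 * (N : ℝ)) ^ 2 ≤ x := by
    have : (64 : ℝ) * N ^ 2 ≤ 256 * l * N ^ 2 := by
      apply mul_le_mul_of_nonneg_right _ (by positivity)
      linarith
    calc (8 * (N : ℝ)) ^ 2 = 64 * N ^ 2 := by ring
      _ ≤ _ := this
      _ ≤ x := hN256
  have hN64' : (8 * N) ^ 2 ≤ x := by exact_mod_cast hN64
  have hNx : N ≤ x := by
    have h1 : N ≤ (8 * N) ^ 2 := by
      have e1 : (8 * N) ^ 2 = 64 * (N * N) := by ring
      have e2 := Nat.le_mul_self N
      omega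
    exact h1.trans hN64'
  have hNs : (N : ℝ) ≤ s := by
    have h1 : (N : ℝ) * 4096 ≤ N * (64 * u) := mul_le_mul_of_nonneg_left (by linarith) hN'.le
    linarith
  have hΛN : Λ ≤ N := by
    have h1 : 8 * x * Λ ≤ 8 * x * N := by
      calc 8 * x * Λ ≤ N * A := hΛ2
        _ ≤ N * x := Nat.mul_le_mul_left _ hAx
        _ ≤ 8 * (N * x) := by omega
        _ = 8 * x * N := by ring
    exact Nat.le_of_mul_le_mul_left h1 (by omega)
  have hΛ3 : Λ * (8 * N) ≤ A := by
    have h1 : x * (Λ * (8 * N)) ≤ x * A := by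
      calc x * (Λ * (8 * N)) = (8 * x * Λ) * N := by ring
        _ ≤ (N * A) * N := Nat.mul_le_mul_right _ hΛ2
        _ = (N * N) * A := by ring
        _ ≤ x * A := by
            apply Nat.mul_le_mul_right
            have e1 : (8 * N) ^ 2 = 64 * (N * N) := by ring
            have : N * N ≤ (8 * N) ^ 2 := by omega
            exact this.trans hN64'
    exact Nat.le_of_mul_le_mul_left h1 hx0
  -- Chebyshev
  set p : ℝ := (Nat.primeCounting x : ℝ) with hp
  have hp0 : 0 < p := by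
    by_contra h
    push Not at h
    have : 2 * l * p ≤ 0 := mul_nonpos_of_nonneg_of_nonpos (by positivity) h
    linarith
  have hlT : l ^ 3 ≤ T := by
    have : 0 ≤ l ^ 3 := by positivity
    linarith
  -- `3072 l² s ≤ x`, used several times
  have hls : 3072 * l ^ 2 * s ≤ x := by
    have h1 : 3072 * l ^ 2 ≤ s := by
      have : l ^ 2 ≤ l ^ 3 := by
        calc l ^ 2 = 1 * l ^ 2 := (one_mul _).symm
          _ ≤ l * l ^ 2 := mul_le_mul_of_nonneg_right (by linarith) (by positivity)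
          _ = l ^ 3 := by ring
      have h0 : 0 ≤ l ^ 3 := by positivity
      linarith
    calc 3072 * l ^ 2 * s ≤ s * s := mul_le_mul_of_nonneg_right h1 hs0.le
      _ = x := hss
  have hps : 1536 * l * s ≤ p := by
    have h1 : (2 * l) * (1536 * l * s) ≤ (2 * l) * p := by
      calc (2 * l) * (1536 * l * s) = 3072 * l ^ 2 * s := by ring
        _ ≤ x := hls
        _ ≤ 2 * l * p := hpi
    exact le_of_mul_le_mul_left h1 (by positivity)
  have hpN : 1536 * l * N ≤ p :=
    (mul_le_mul_of_nonneg_left hNs (by positivity)).trans hps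
  have hmm : 3 ≤ p / (32 * N) := by
    rw [le_div_iff₀ (by positivity)]
    have : 96 * (N : ℝ) ≤ 1536 * l * N := mul_le_mul_of_nonneg_right (by linarith) hN'.le
    linarith
  -- the logarithm
  set lg : ℝ := ((Nat.log 2 (2 * A) : ℕ) : ℝ) with hlg
  have hlg0 : 0 ≤ lg := Nat.cast_nonneg _
  have hlg3 : lg ≤ 3 * l - 1 := by
    have h1 := natlog_le' (2 * A) (by omega)
    have h2 : Real.log ((2 * A : ℕ) : ℝ) ≤ 1 + l := by
      push_cast
      rw [Real.log_mul (by norm_num) (by positivity)]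
      have h3 : Real.log (A : ℝ) ≤ l := by
        rw [hl]
        exact Real.log_le_log hA' hAx'
      have := Real.log_two_lt_d9
      linarith
    linarith
  -- number of primes
  have hNN₀ : N₀ ≤ N := by
    have h1 : (N₀ : ℝ) ≤ N := by
      refine le_trans ?_ hNlow
      rw [le_div_iff₀ hl0]
      have h2 : T ≤ Real.sqrt A := by
        rw [hT]
        exact Real.sqrt_le_sqrt hsA'
      have h3 : (N₀ : ℝ) * l ≤ T := by
        have : (N₀ : ℝ) * l ≤ l ^ 3 * (N₀ + 4000) := by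
          calc (N₀ : ℝ) * l ≤ N₀ * l ^ 3 := mul_le_mul_of_nonneg_left hl3 hN₀0
            _ = l ^ 3 * N₀ := mul_comm _ _
            _ ≤ l ^ 3 * (N₀ + 4000) := mul_le_mul_of_nonneg_left (by linarith) (by positivity)
        linarith
      linarith
    exact_mod_cast h1
  set Rc : ℝ := ((RR N).card : ℝ) with hRc
  have hRcl : (N : ℝ) ≤ Rc * l := by
    refine (hN₀ N hNN₀).trans ?_
    apply mul_le_mul_of_nonneg_left _ (Nat.cast_nonneg _)
    rw [hl]
    exact Real.log_le_log hN' (by exact_mod_cast hNx)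
  have hRc0 : 0 < Rc := by
    by_contra h
    push Not at h
    have : Rc * l ≤ 0 := mul_nonpos_of_nonpos_of_nonneg h hl0.le
    linarith
  have hRlg : 2 * lg ≤ Rc := by
    have h1 : T / l ≤ N := by
      refine le_trans ?_ hNlow
      apply div_le_div_of_nonneg_right _ hl0.le
      rw [hT]
      exact Real.sqrt_le_sqrt hsA'
    have h2 : 4000 * l ^ 2 ≤ N := by
      refine le_trans ?_ h1
      rw [le_div_iff₀ hl0]
      calc 4000 * l ^ 2 * l = 4000 * l ^ 3 := by ring
        _ ≤ T := hl3T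
    have h3 : (6 * l) * l ≤ Rc * l := by
      calc (6 * l) * l = 6 * l ^ 2 := by ring
        _ ≤ 4000 * l ^ 2 := mul_le_mul_of_nonneg_right (by norm_num) (by positivity)
        _ ≤ N := h2
        _ ≤ Rc * l := hRcl
    have h4 := le_of_mul_le_mul_right h3 hl0
    linarith
  -- the size of the exceptional set
  have hQ0 : (0 : ℝ) < Q.card := lt_of_le_of_lt (by positivity) hcon
  have hQbig : 2 * 7680 ^ 2 * l ^ 3 * (2 * A + (8 * (N : ℝ)) ^ 2) ≤ Q.card * N := by
    have h1 : (A : ℝ) ≤ Real.sqrt A * (N * l) := by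
      have h2 : Real.sqrt A ≤ N * l := by
        rw [div_le_iff₀ hl0] at hNlow
        exact hNlow
      calc (A : ℝ) = Real.sqrt A * Real.sqrt A := hsA.symm
        _ ≤ _ := mul_le_mul_of_nonneg_left h2 (by positivity)
    have h2 : (N : ℝ) ≤ 9 * (Real.sqrt A + x / A) := by
      have h3 : Real.sqrt A / l ≤ Real.sqrt A := by
        apply div_le_self (by positivity)
        linarith
      have h4 : 8 * (x : ℝ) / A = 8 * (x / A) := by ring
      rw [h4] at hNup
      linarith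
    set Z := Real.sqrt A + (x : ℝ) / A with hZ
    have hZ0 : 0 < Z := by positivity
    have hAZ : Real.sqrt A ≤ Z := by
      rw [hZ]
      linarith
    have h5 : 2 * (A : ℝ) + (8 * (N : ℝ)) ^ 2 ≤ 578 * Z * l * N := by
      have h6 : 2 * (A : ℝ) ≤ 2 * Z * l * N := by
        calc 2 * (A : ℝ) ≤ 2 * (Real.sqrt A * (N * l)) := by linarith
          _ ≤ 2 * (Z * (N * l)) := by
              apply mul_le_mul_of_nonneg_left _ (by norm_num)
              exact mul_le_mul_of_nonneg_right hAZ (by positivity)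
          _ = _ := by ring
      have h7 : (8 * (N : ℝ)) ^ 2 ≤ 576 * Z * l * N := by
        calc (8 * (N : ℝ)) ^ 2 = 64 * N * N := by ring
          _ ≤ 64 * (9 * Z) * N := by
              apply mul_le_mul_of_nonneg_right _ hN'.le
              linarith
          _ = (576 * Z * 1) * N := by ring
          _ ≤ (576 * Z * l) * N := by
              apply mul_le_mul_of_nonneg_right _ hN'.le
              exact mul_le_mul_of_nonneg_left (by linarith) (by positivity)
      linarith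
    calc 2 * 7680 ^ 2 * l ^ 3 * (2 * A + (8 * (N : ℝ)) ^ 2)
        ≤ 2 * 7680 ^ 2 * l ^ 3 * (578 * Z * l * N) :=
          mul_le_mul_of_nonneg_left h5 (by positivity)
      _ = (2 * 7680 ^ 2 * 578 * Z * l ^ 4) * N := by ring
      _ ≤ Q.card * N := mul_le_mul_of_nonneg_right hcon.le hN'.le
  -- conclusion
  have hmain := main_ineq2 x A N Λ Q hx0 (by omega) hN0 hQsub hN64' hΛN hΛ2 hΛ3 (by
    have : p / (16 * N) = p / (32 * N) + p / (32 * N) := by
      field_simp
      norm_num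
    rw [this]
    linarith)
  have hstep := real_step2 p A N Λ x l lg Rc Q.card (∑ q ∈ Q, WW x q) hp0 hA' hN' hX
    (by linarith) hlg0 hQ0 hRc0 hΛ0 hpi hRcl hRlg hmm
    (by
      have h1 : 512 * lg * N ≤ 512 * (3 * l) * N := by
        apply mul_le_mul_of_nonneg_right _ hN'.le
        linarith
      linarith)
    (by
      have h1 : 64 * (N : ℝ) ^ 2 * (lg + 1) ≤ 64 * (N : ℝ) ^ 2 * (4 * l) :=
        mul_le_mul_of_nonneg_left (by linarith) (by positivity)
      linarith)
    hΛ2' hΛ16 hQbig hmain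
  have hlt : ∑ q ∈ Q, WW x q < ∑ q ∈ Q, 5 / 8192 * Real.sqrt (x / A) / (l * Real.sqrt l) := by
    apply sum_lt_sum_of_nonempty
    · rw [← card_pos]
      exact_mod_cast hQ0
    · intro q hq
      rw [hQdef, mem_filter, mem_Ioc] at hq
      refine lt_of_lt_of_le hq.2 ?_
      apply div_le_div_of_nonneg_right _ (by positivity)
      apply mul_le_mul_of_nonneg_left _ (by norm_num)
      apply Real.sqrt_le_sqrt
      apply div_le_div_of_nonneg_left hX.le hA'
      exact_mod_cast hq.1.1.le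
  rw [sum_const, nsmul_eq_mul] at hlt
  exact absurd hstep (not_le.mpr hlt)

end Pool.Agent.H92.EH
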