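import Mathlib
import Pool.Agent.H92.EH2.Except

/-!
Conditions which hold for all large `x`.
-/

set_option autoImplicit false

namespace Pool.Agent.H92.EH

open Finset Filter

theorem cheb_eventually : ∀ᶠ x : ℕ in atTop,
    (x : ℝ) ≤ 2 * Real.log x * Nat.primeCounting x := by
  have hlog : Tendsto (fun x : ℕ => Real.log (x : ℝ)) atTop atTop :=
    Real.tendsto_log_atTop.comp tendsto_natCast_atTop_atTop
  filter_upwards [eventually_ge_atTop 400, hlog.eventually_ge_atTop 1] with x hx hl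
  have hx' : (400 : ℝ) ≤ x := by exact_mod_cast hx
  have hs : Real.sqrt ((x : ℝ) + 1) * Real.sqrt ((x : ℝ) + 1) = x + 1 :=
    Real.mul_self_sqrt (by linarith)
  have hs0 : 0 < Real.sqrt ((x : ℝ) + 1) := Real.sqrt_pos.mpr (by linarith)
  have h3 : Real.log ((x : ℝ) + 1) = 2 * Real.log (Real.sqrt ((x : ℝ) + 1)) := by
    rw [Real.log_sqrt (by linarith)]
    ring
  have h4 : Real.log (Real.sqrt ((x : ℝ) + 1)) ≤ Real.sqrt ((x : ℝ) + 1) - 1 :=
    Real.log_le_sub_one_of_pos hs0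
  have h5 := Real.log_two_gt_d9
  have h6 : (20 : ℝ) ≤ Real.sqrt ((x : ℝ) + 1) := by
    apply Real.le_sqrt_of_sq_le
    linarith
  have h7 : (x : ℝ) * 0.19 ≤ x * (Real.log 2 - 1 / 2) :=
    mul_le_mul_of_nonneg_left (by linarith) (by linarith)
  have h8 : 20 * Real.sqrt ((x : ℝ) + 1) ≤ x + 1 :=
    (mul_le_mul_of_nonneg_right h6 hs0.le).trans hs.le
  have h9 : Real.log ((x : ℝ) + 1) ≤ x * (Real.log 2 - 1 / 2) := by linarith
  have h10 := Chebyshev.pi_ge x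
  rw [div_le_iff₀ (by linarith)] at h10
  have h11 : (x : ℝ) / 2 ≤ x * Real.log 2 - Real.log (x + 1) := by linarith
  have h12 := h11.trans h10
  linarith

theorem log_cube_eventually (K : ℝ) (hK : 1 ≤ K) : ∀ᶠ x : ℕ in atTop,
    Real.log x ^ 3 * K ≤ Real.sqrt (Real.sqrt x) := by
  have hK0 : 0 < K := by linarith
  have hlo := (isLittleO_log_rpow_atTop (r := 1 / 12) (by norm_num)).def
    (c := 1 / K) (by positivity)
  have hlo' := tendsto_natCast_atTop_atTop.eventually hlo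
  filter_upwards [hlo', eventually_ge_atTop 1] with x hx hx1
  have hx1' : (1 : ℝ) ≤ x := by exact_mod_cast hx1
  have hx0 : (0 : ℝ) < x := by linarith
  rw [Real.norm_of_nonneg (Real.log_nonneg hx1'), Real.norm_of_nonneg (by positivity)] at hx
  have h1 : Real.log x ^ 3 ≤ (1 / K * (x : ℝ) ^ (1 / 12 : ℝ)) ^ 3 :=
    pow_le_pow_left₀ (Real.log_nonneg hx1') hx 3
  have h2 : ((x : ℝ) ^ (1 / 12 : ℝ)) ^ 3 = Real.sqrt (Real.sqrt x) := by
    rw [← Real.rpow_natCast, ← Real.rpow_mul hx0.le, Real.sqrt_eq_rpow, Real.sqrt_eq_rpow,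
      ← Real.rpow_mul hx0.le]
    norm_num
  rw [mul_pow, h2] at h1
  have h3 : (1 / K) ^ 3 * K ≤ 1 := by
    have : (1 / K) ^ 3 * K = (1 / K) ^ 2 := by field_simp
    rw [this]
    apply pow_le_one₀ (by positivity)
    rw [div_le_one hK0]
    exact hK
  calc Real.log x ^ 3 * K ≤ ((1 / K) ^ 3 * Real.sqrt (Real.sqrt x)) * K :=
        mul_le_mul_of_nonneg_right h1 hK0.le
    _ = ((1 / K) ^ 3 * K) * Real.sqrt (Real.sqrt x) := by ring
    _ ≤ 1 * Real.sqrt (Real.sqrt x) := mul_le_mul_of_nonneg_right h3 (Real.sqrt_nonneg _)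
    _ = _ := one_mul _

/-- The bound for the exceptional set, for all large `x`. -/
theorem except_final : ∃ x₀ : ℕ, ∀ x : ℕ, x₀ ≤ x → 1 ≤ Real.log (x : ℝ) ∧
    ∀ A : ℕ, 1 ≤ A → A ≤ x →
    (((Ioc A (2 * A)).filter (fun q : ℕ => WW x q < 5 / 8192 * Real.sqrt (x / q)
      / (Real.log x * Real.sqrt (Real.log x)))).card : ℝ)
      ≤ 2 * 7680 ^ 2 * 578 * (Real.sqrt A + x / A) * Real.log x ^ 4 := by
  obtain ⟨N₀, hN₀⟩ := eventually_atTop.mp card_RR_ge
  have hlog : Tendsto (fun x : ℕ => Real.log (x : ℝ)) atTop atTop :=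
    Real.tendsto_log_atTop.comp tendsto_natCast_atTop_atTop
  have hall : ∀ᶠ x : ℕ in atTop, 4096 ≤ Real.log (x : ℝ)
      ∧ Real.log (x : ℝ) ^ 3 * ((N₀ : ℝ) + 4000) ≤ Real.sqrt (Real.sqrt x)
      ∧ (x : ℝ) ≤ 2 * Real.log x * Nat.primeCounting x := by
    have hN : (0 : ℝ) ≤ N₀ := Nat.cast_nonneg _
    filter_upwards [hlog.eventually_ge_atTop 4096,
      log_cube_eventually ((N₀ : ℝ) + 4000) (by linarith), cheb_eventually] with x a b c
    exact ⟨a, b, c⟩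
  obtain ⟨x₀, hx₀⟩ := eventually_atTop.mp hall
  refine ⟨x₀, fun x hx => ?_⟩
  obtain ⟨h1, h2, h3⟩ := hx₀ x hx
  refine ⟨by linarith, fun A hA1 hAx => ?_⟩
  exact except_bound N₀ hN₀ x A (Real.log x) (Real.sqrt (Real.sqrt x)) rfl h1 rfl h2 h3 hA1 hAx

end Pool.Agent.H92.EH
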